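import Mathlib

/-!
# A hypersurface and the complement of the coordinate hyperplanes
-/

set_option autoImplicit false
set_option maxHeartbeats 400000

namespace Pool.Agent.K9h86.EB

open Filter Topology

/-- the pairs with nonzero `μ` and `∑ x_k / μ_k = 0` -/
def Gd (ι : Type) [Fintype ι] : Set ((ι → ℂ) × (ι → ℂ)) :=
  {z | (∀ k, z.1 k ≠ 0) ∧ ∑ k, z.2 k / z.1 k = 0}

lemma mem_closure_of_path {A : Type} [TopologicalSpace A] {S : Set A} (f : ℂ → A)
    (hf : ContinuousAt f 0) (h : ∀ᶠ ε in 𝓝[≠] (0 : ℂ), f ε ∈ S) : f 0 ∈ closure S :=
  mem_closure_of_tendsto (hf.tendsto.mono_left nhdsWithin_le_nhds) h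

theorem mem_closure_Gd {ι : Type} [Fintype ι] [DecidableEq ι] (μ x : ι → ℂ)
    (h : ∑ k, x k * ∏ l ∈ Finset.univ.erase k, μ l = 0) : (μ, x) ∈ closure (Gd ι) := by
  by_cases hA : ∀ k, μ k ≠ 0
  · refine subset_closure ⟨hA, ?_⟩
    have hp : ∏ l, μ l ≠ 0 := Finset.prod_ne_zero_iff.mpr fun l _ => hA l
    have h1 : ∀ k, x k / μ k = (x k * ∏ l ∈ Finset.univ.erase k, μ l) / ∏ l, μ l := by
      intro k
      rw [← Finset.mul_prod_erase Finset.univ μ (Finset.mem_univ k)]
      have h2 : ∏ l ∈ Finset.univ.erase k, μ l ≠ 0 :=
        Finset.prod_ne_zero_iff.mpr fun l _ => hA l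
      have h3 := hA k
      field_simp
    change ∑ k, x k / μ k = 0
    rw [Finset.sum_congr rfl (fun k _ => h1 k), ← Finset.sum_div, h, zero_div]
  · by_cases hB : ∃ k, μ k = 0 ∧ x k = 0
    · obtain ⟨k₁, hk1, hk2⟩ := hB
      let f : ℂ → (ι → ℂ) × (ι → ℂ) := fun ε =>
        (fun k => if k = k₁ then ε ^ 2 else if μ k = 0 then ε else μ k,
         fun k => if k = k₁ then -∑ l ∈ Finset.univ.erase k₁,
            (if μ l = 0 then ε * x l else ε ^ 2 * (x l / μ l)) else x k)
      have hf : Continuous f := by
        refine Continuous.prodMk ?_ ?_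
        · refine continuous_pi fun k => ?_
          split_ifs
          · fun_prop
          · fun_prop
          · fun_prop
        · refine continuous_pi fun k => ?_
          split_ifs
          · refine (continuous_finsetSum _ fun l _ => ?_).neg
            split_ifs
            · fun_prop
            · fun_prop
          · fun_prop
      have h0 : f 0 = (μ, x) := by
        refine Prod.ext ?_ ?_
        · funext k
          change (if k = k₁ then (0 : ℂ) ^ 2 else if μ k = 0 then 0 else μ k) = μ k
          split_ifs with e1 e2
          · rw [e1, hk1]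
            ring
          · rw [e2]
          · rfl
        · funext k
          change (if k = k₁ then -∑ l ∈ Finset.univ.erase k₁,
            (if μ l = 0 then 0 * x l else (0 : ℂ) ^ 2 * (x l / μ l)) else x k) = x k
          split_ifs with e1
          · rw [e1, hk2]
            simp
          · rfl
      rw [← h0]
      refine mem_closure_of_path f hf.continuousAt ?_
      filter_upwards [self_mem_nhdsWithin] with ε hε
      have hε' : ε ≠ 0 := hε
      refine ⟨fun k => ?_, ?_⟩
      · change (if k = k₁ then ε ^ 2 else if μ k = 0 then ε else μ k) ≠ 0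
        split_ifs with e1 e2
        · exact pow_ne_zero _ hε'
        · exact hε'
        · exact e2
      · change ∑ k, (if k = k₁ then -∑ l ∈ Finset.univ.erase k₁,
            (if μ l = 0 then ε * x l else ε ^ 2 * (x l / μ l)) else x k) /
              (if k = k₁ then ε ^ 2 else if μ k = 0 then ε else μ k) = 0
        rw [← Finset.add_sum_erase Finset.univ _ (Finset.mem_univ k₁), if_pos rfl, if_pos rfl,
          neg_div, Finset.sum_div, ← Finset.sum_neg_distrib, ← Finset.sum_add_distrib]
        refine Finset.sum_eq_zero fun l hl => ?_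
        have hl' := Finset.ne_of_mem_erase hl
        rw [if_neg hl', if_neg hl']
        split_ifs with e1
        · field_simp
          ring
        · field_simp
          ring
    · push Not at hA hB
      obtain ⟨k₁, hk1⟩ := hA
      let K : Finset ι := (Finset.univ.erase k₁).filter fun l => μ l = 0
      have hK : K.Nonempty := by
        by_contra hK
        rw [Finset.not_nonempty_iff_eq_empty] at hK
        have h1 : ∀ l, l ≠ k₁ → μ l ≠ 0 := by
          intro l hl h0
          have : l ∈ K := Finset.mem_filter.mpr ⟨Finset.mem_erase.mpr ⟨hl, Finset.mem_univ l⟩, h0⟩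
          rw [hK] at this
          exact Finset.notMem_empty l this
        rw [Finset.sum_eq_single k₁] at h
        · exact mul_ne_zero (hB k₁ hk1) (Finset.prod_ne_zero_iff.mpr fun l hl =>
            h1 l (Finset.ne_of_mem_erase hl)) h
        · intro k _ hk
          rw [Finset.prod_eq_zero (Finset.mem_erase.mpr ⟨hk.symm, Finset.mem_univ k₁⟩) hk1,
            mul_zero]
        · intro h2
          exact absurd (Finset.mem_univ k₁) h2
      have hN : (K.card : ℂ) ≠ 0 := by exact_mod_cast hK.card_pos.ne'
      let R : ℂ := ∑ l ∈ (Finset.univ.erase k₁).filter (fun l => ¬ μ l = 0), x l / μ l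
      let f : ℂ → (ι → ℂ) × (ι → ℂ) := fun ε =>
        (fun k => if k = k₁ then -(ε * x k₁) / (K.card + ε * R) else
          if μ k = 0 then ε * x k else μ k, x)
      have hf : ContinuousAt f 0 := by
        refine ContinuousAt.prodMk ?_ continuousAt_const
        refine continuousAt_pi.mpr fun k => ?_
        split_ifs
        · refine ContinuousAt.div (by fun_prop) (by fun_prop) ?_
          rw [zero_mul, add_zero]
          exact hN
        · fun_prop
        · fun_prop
      have h0 : f 0 = (μ, x) := by
        refine Prod.ext ?_ rfl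
        funext k
        change (if k = k₁ then -(0 * x k₁) / (K.card + 0 * R) else
          if μ k = 0 then 0 * x k else μ k) = μ k
        split_ifs with e1 e2
        · rw [e1, hk1]
          simp
        · rw [e2]
          ring
        · rfl
      rw [← h0]
      refine mem_closure_of_path f hf ?_
      have h1 : ∀ᶠ ε in 𝓝[≠] (0 : ℂ), (K.card : ℂ) + ε * R ≠ 0 := by
        have h2 : ContinuousAt (fun ε : ℂ => (K.card : ℂ) + ε * R) 0 := by fun_prop
        have h3 : (fun ε : ℂ => (K.card : ℂ) + ε * R) 0 ≠ 0 := by
          change (K.card : ℂ) + 0 * R ≠ 0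
          rw [zero_mul, add_zero]
          exact hN
        exact (h2.eventually_ne h3).filter_mono nhdsWithin_le_nhds
      filter_upwards [self_mem_nhdsWithin, h1] with ε hε hR
      have hε' : ε ≠ 0 := hε
      refine ⟨fun k => ?_, ?_⟩
      · change (if k = k₁ then -(ε * x k₁) / (K.card + ε * R) else
          if μ k = 0 then ε * x k else μ k) ≠ 0
        split_ifs with e1 e2
        · exact div_ne_zero (neg_ne_zero.mpr (mul_ne_zero hε' (hB k₁ hk1))) hR
        · exact mul_ne_zero hε' (hB k e2)
        · exact e2
      · change ∑ k, x k / (if k = k₁ then -(ε * x k₁) / (K.card + ε * R) else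
          if μ k = 0 then ε * x k else μ k) = 0
        rw [← Finset.add_sum_erase Finset.univ _ (Finset.mem_univ k₁), if_pos rfl]
        have h2 : ∑ l ∈ Finset.univ.erase k₁, x l / (if l = k₁ then
            -(ε * x k₁) / (K.card + ε * R) else if μ l = 0 then ε * x l else μ l)
            = K.card * ε⁻¹ + R := by
          rw [← Finset.sum_filter_add_sum_filter_not (Finset.univ.erase k₁) (fun l => μ l = 0)]
          congr 1
          · have h3 : ∀ l ∈ (Finset.univ.erase k₁).filter (fun l => μ l = 0),
                x l / (if l = k₁ then -(ε * x k₁) / (K.card + ε * R) else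
                  if μ l = 0 then ε * x l else μ l) = ε⁻¹ := by
              intro l hl
              obtain ⟨h4, h5⟩ := Finset.mem_filter.mp hl
              rw [if_neg (Finset.ne_of_mem_erase h4), if_pos h5]
              have h6 := hB l h5
              field_simp
            rw [Finset.sum_congr rfl h3, Finset.sum_const, nsmul_eq_mul]
          · refine Finset.sum_congr rfl fun l hl => ?_
            obtain ⟨h4, h5⟩ := Finset.mem_filter.mp hl
            rw [if_neg (Finset.ne_of_mem_erase h4), if_neg h5]
        rw [h2]
        have h3 := hB k₁ hk1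
        field_simp
        ring

end Pool.Agent.K9h86.EB
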