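import Mathlib
import Pool.Agent.Helper834.EC.Defs

/-!
# The equations of the eigencompatibility variety for binary tensors: definitions
-/

set_option autoImplicit false

namespace Pool.Agent.K9h86.EB

open Pool.Agent.Helper834.EC
open scoped LinearAlgebra.Projectivization

/-- The isotropic coordinate `u = v₀ + i v₁` of a vector of `V = ℂ²`; the quadratic form is
`v₀² + v₁² = u w`. -/
noncomputable def uc (v : V 1) : ℂ := v 0 + Complex.I * v 1

/-- The isotropic coordinate `w = v₀ - i v₁`. -/
noncomputable def wc (v : V 1) : ℂ := v 0 - Complex.I * v 1

section coordinates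

variable {d : ℕ} (y : Coord 1 d) (k : Fin d)

/-- The vector which represents the `j`-th point of the `k`-th configuration. -/
def pt (j : Fin (D 1 d)) : V 1 := fun a => y.1 ((k, j), a)

/-- The product of the coordinates `u` of the points of the `k`-th configuration. -/
noncomputable def prodU : ℂ := ∏ j, uc (pt y k j)

/-- The product of the coordinates `w` of the points of the `k`-th configuration. -/
noncomputable def prodW : ℂ := ∏ j, wc (pt y k j)

/-- The sum, over all the sets `A` of `d / 2` points of the `k`-th configuration, of the product of
the coordinates `w` of the points in `A` and of the coordinates `u` of the other points. -/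
noncomputable def middle : ℂ := ∑ A ∈ Finset.powersetCard (d / 2) (Finset.univ : Finset (Fin (D 1 d))),
  (∏ j ∈ A, wc (pt y k j)) * ∏ j ∈ Aᶜ, uc (pt y k j)

end coordinates

/-- **The equations**, in homogeneous coordinates of the points. They do not change if the vectors
which represent the points are multiplied by nonzero numbers or if the points of a configuration
are permuted. -/
structure Equations {d : ℕ} (y : Coord 1 d) : Prop where
  isotropic : ∀ k l : Fin d, prodU y k * prodW y l = prodU y l * prodW y k
  middle_u : Even d → ∑ k, middle y k * ∏ l ∈ Finset.univ.erase k, prodU y l = 0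
  middle_w : Even d → ∑ k, middle y k * ∏ l ∈ Finset.univ.erase k, prodW y l = 0

/-- The tuples `(X_1, ..., X_d)` for which there is a tensor `T` such that, for all `k`, the
`k`-th eigenscheme of `T` is finite and `X_k` is this scheme, with its multiplicities: the minor
`v₀ (T ⌟ v)₁ - v₁ (T ⌟ v)₀` is the product of the linear forms `v₀ p₁ - v₁ p₀`, `p ∈ X_k`, up to a
nonzero factor. -/
def schemeConfs (d : ℕ) : Set (Conf 1 d) :=
  {Z | ∃ T : Tensor 1 d, ∀ k, ∃ c : ℂ, c ≠ 0 ∧ ∀ v : V 1,
    v 0 * contract T k v 1 - v 1 * contract T k v 0 =
      c * ((Z k : Multiset (ℙ ℂ (V 1))).map fun p => v 0 * p.rep 1 - v 1 * p.rep 0).prod}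

end Pool.Agent.K9h86.EB
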