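import Mathlib
import Pool.Agent.K9h86.EB.Df

/-!
# Homogeneous evaluation, unique factorisation
-/

set_option autoImplicit false

namespace Pool.Agent.K9h86.EB

open Polynomial Pool.Agent.Helper834.EC
open scoped LinearAlgebra.Projectivization

/-- The polynomial `∏ (w(p) t + u(p))` over the points `p` of a configuration `X`. -/
noncomputable def form (X : Multiset (ℙ ℂ (V 1))) : ℂ[X] :=
  (X.map fun p => C (wc p.rep) * Polynomial.X + C (uc p.rep)).prod

/-- The equations, for `d` polynomials `Q k`. -/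
def Compatible (d : ℕ) (Q : Fin d → ℂ[X]) : Prop :=
  (∀ k l, (Q k).coeff 0 * (Q l).coeff d = (Q l).coeff 0 * (Q k).coeff d) ∧
  (Even d →
    ∑ k, (Q k).coeff (d / 2) * ∏ l ∈ Finset.univ.erase k, (Q l).coeff 0 = 0 ∧
    ∑ k, (Q k).coeff (d / 2) * ∏ l ∈ Finset.univ.erase k, (Q l).coeff d = 0)

/-- The set cut out by the equations. -/
def cutOut (d : ℕ) : Set (Conf 1 d) := {Z | Compatible d fun k => form (Z k)}

/-- homogeneous evaluation of a polynomial of degree at most `n` -/
noncomputable def hev (n : ℕ) (s r : ℂ) : ℂ[X] →ₗ[ℂ] ℂ :=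
  ∑ m ∈ Finset.range (n + 1), (s ^ m * r ^ (n - m)) • lcoeff ℂ m

lemma hev_apply (n : ℕ) (s r : ℂ) (F : ℂ[X]) :
    hev n s r F = ∑ m ∈ Finset.range (n + 1), s ^ m * r ^ (n - m) * F.coeff m := by
  rw [hev, LinearMap.sum_apply]
  rfl

lemma hev_X_pow {n j : ℕ} (hj : j ≤ n) (s r : ℂ) : hev n s r (X ^ j) = s ^ j * r ^ (n - j) := by
  rw [hev_apply, Finset.sum_eq_single j]
  · rw [coeff_X_pow, if_pos rfl, mul_one]
  · intro m _ hm
    rw [coeff_X_pow, if_neg hm, mul_zero]
  · intro h
    exact absurd (Finset.mem_range.mpr (by omega)) h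

lemma eq_sum {n : ℕ} {F : ℂ[X]} (hF : F.natDegree ≤ n) :
    F = ∑ m ∈ Finset.range (n + 1), F.coeff m • (X : ℂ[X]) ^ m := by
  conv_lhs => rw [as_sum_range' F (n + 1) (by omega)]
  refine Finset.sum_congr rfl fun m _ => ?_
  rw [← C_mul_X_pow_eq_monomial, smul_eq_C_mul]

lemma hev_lin_mul {n : ℕ} {F : ℂ[X]} (hF : F.natDegree ≤ n) (p q s r : ℂ) :
    hev (n + 1) s r ((C p * X + C q) * F) = (p * s + q * r) * hev n s r F := by
  have key : ∀ j ≤ n, hev (n + 1) s r ((C p * X + C q) * X ^ j)
      = (p * s + q * r) * hev n s r (X ^ j) := by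
    intro j hj
    have h1 : (C p * X + C q) * (X : ℂ[X]) ^ j = p • X ^ (j + 1) + q • X ^ j := by
      rw [smul_eq_C_mul, smul_eq_C_mul]
      ring
    rw [h1, map_add, map_smul, map_smul, hev_X_pow (by omega), hev_X_pow (by omega),
      hev_X_pow hj]
    have h2 : n + 1 - (j + 1) = n - j := by omega
    have h3 : n + 1 - j = (n - j) + 1 := by omega
    rw [h2, h3, smul_eq_mul, smul_eq_mul]
    ring
  rw [eq_sum hF, Finset.mul_sum, map_sum, map_sum, Finset.mul_sum]
  refine Finset.sum_congr rfl fun m hm => ?_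
  rw [mul_smul_comm, map_smul, map_smul, key m (by
    have := Finset.mem_range.mp hm
    omega), smul_eq_mul, smul_eq_mul]
  ring

lemma natDegree_lin_mul {n : ℕ} {F : ℂ[X]} (hF : F.natDegree ≤ n) (p q : ℂ) :
    ((C p * X + C q) * F).natDegree ≤ n + 1 := by
  refine natDegree_mul_le.trans ?_
  have h1 : (C p * X + C q : ℂ[X]).natDegree ≤ 1 := natDegree_linear_le
  omega

/-- products of linear polynomials -/
lemma prod_lin {ι : Type} (S : Finset ι) (p q : ι → ℂ) :
    (∏ i ∈ S, (C (p i) * X + C (q i))).natDegree ≤ S.card ∧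
    ∀ s r : ℂ, hev S.card s r (∏ i ∈ S, (C (p i) * X + C (q i))) = ∏ i ∈ S, (p i * s + q i * r) := by
  classical
  induction S using Finset.induction_on with
  | empty =>
    refine ⟨by simp, fun s r => ?_⟩
    rw [Finset.prod_empty, Finset.prod_empty, ← pow_zero X, Finset.card_empty,
      hev_X_pow le_rfl]
    simp
  | insert a S ha ih =>
    rw [Finset.prod_insert ha, Finset.card_insert_of_notMem ha]
    refine ⟨natDegree_lin_mul ih.1 _ _, fun s r => ?_⟩
    rw [hev_lin_mul ih.1, ih.2, Finset.prod_insert ha]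

lemma form_cons (p : ℙ ℂ (V 1)) (M : Multiset (ℙ ℂ (V 1))) :
    form (p ::ₘ M) = (C (wc p.rep) * X + C (uc p.rep)) * form M := by
  rw [form, Multiset.map_cons, Multiset.prod_cons, form]

lemma form_natDegree (M : Multiset (ℙ ℂ (V 1))) : (form M).natDegree ≤ Multiset.card M := by
  induction M using Multiset.induction_on with
  | empty => simp [form]
  | cons p M ih =>
    rw [form_cons, Multiset.card_cons]
    exact natDegree_lin_mul ih _ _

lemma hev_form (M : Multiset (ℙ ℂ (V 1))) (s r : ℂ) :
    hev (Multiset.card M) s r (form M) = (M.map fun p => wc p.rep * s + uc p.rep * r).prod := by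
  induction M using Multiset.induction_on with
  | empty =>
    rw [form, Multiset.map_zero, Multiset.prod_zero, Multiset.card_zero, ← pow_zero X,
      hev_X_pow le_rfl]
    simp
  | cons p M ih =>
    rw [form_cons, Multiset.card_cons, hev_lin_mul (form_natDegree M), ih, Multiset.map_cons,
      Multiset.prod_cons]

lemma vec_eq_zero {v : V 1} (h1 : uc v = 0) (h2 : wc v = 0) : v = 0 := by
  rw [uc] at h1
  rw [wc] at h2
  have h3 : v 0 = 0 := by linear_combination (h1 + h2) / 2
  have h4 : Complex.I * v 1 = 0 := by linear_combination (h1 - h2) / 2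
  have h5 : v 1 = 0 := (mul_eq_zero.mp h4).resolve_left Complex.I_ne_zero
  funext i
  fin_cases i
  · exact h3
  · exact h5

lemma lin_ne {v : V 1} (hv : v ≠ 0) : (C (wc v) * X + C (uc v) : ℂ[X]) ≠ 0 := by
  intro h
  have h1 := congrArg (fun F => F.coeff 0) h
  have h2 := congrArg (fun F => F.coeff 1) h
  simp at h1 h2
  exact hv (vec_eq_zero h1 h2)

lemma form_ne (M : Multiset (ℙ ℂ (V 1))) : form M ≠ 0 := by
  rw [form]
  refine Multiset.prod_ne_zero ?_
  rw [Multiset.mem_map]
  rintro ⟨p, -, hp⟩
  exact lin_ne p.rep_nonzero hp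

/-- two points -/
lemma det_eq {p p' : ℙ ℂ (V 1)} (h : wc p'.rep * (-uc p.rep) + uc p'.rep * wc p.rep = 0) :
    p' = p := by
  have h1 : p.rep 0 * p'.rep 1 = p.rep 1 * p'.rep 0 := by
    rw [uc, uc, wc, wc] at h
    have h2 : 2 * Complex.I * (p.rep 0 * p'.rep 1 - p.rep 1 * p'.rep 0) = 0 := by
      linear_combination h
    have h3 := (mul_eq_zero.mp h2).resolve_left (mul_ne_zero two_ne_zero Complex.I_ne_zero)
    exact sub_eq_zero.mp h3
  rw [← p.mk_rep, ← p'.mk_rep, Projectivization.mk_eq_mk_iff']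
  by_cases h0 : p.rep 0 = 0
  · have h4 : p.rep 1 ≠ 0 := by
      intro h5
      apply p.rep_nonzero
      funext i
      fin_cases i
      · exact h0
      · exact h5
    refine ⟨p'.rep 1 / p.rep 1, ?_⟩
    rw [h0, zero_mul] at h1
    have h5 : p'.rep 0 = 0 := (mul_eq_zero.mp h1.symm).resolve_left h4
    funext i
    fin_cases i
    · change p'.rep 1 / p.rep 1 * p.rep 0 = p'.rep 0
      rw [h0, h5, mul_zero]
    · change p'.rep 1 / p.rep 1 * p.rep 1 = p'.rep 1
      exact div_mul_cancel₀ _ h4
  · refine ⟨p'.rep 0 / p.rep 0, ?_⟩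
    funext i
    fin_cases i
    · change p'.rep 0 / p.rep 0 * p.rep 0 = p'.rep 0
      exact div_mul_cancel₀ _ h0
    · change p'.rep 0 / p.rep 0 * p.rep 1 = p'.rep 1
      rw [div_mul_eq_mul_div, div_eq_iff h0]
      linear_combination -h1

lemma det_self (p : ℙ ℂ (V 1)) : wc p.rep * (-uc p.rep) + uc p.rep * wc p.rep = 0 := by ring

/-- unique factorisation -/
theorem form_inj : ∀ (M N : Multiset (ℙ ℂ (V 1))), Multiset.card M = Multiset.card N →
    ∀ c : ℂ, form M = C c * form N → M = N := by
  intro M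
  induction M using Multiset.induction_on with
  | empty =>
    intro N hN c _
    exact (Multiset.card_eq_zero.mp hN.symm).symm
  | cons p M ih =>
    intro N hN c h
    have h1 : hev (Multiset.card N) (-uc p.rep) (wc p.rep) (form (p ::ₘ M)) = 0 := by
      rw [← hN, hev_form, Multiset.map_cons, Multiset.prod_cons, det_self, zero_mul]
    have hc : c ≠ 0 := by
      rintro rfl
      rw [C_0, zero_mul] at h
      exact form_ne _ h
    rw [h, ← smul_eq_C_mul, map_smul, hev_form, smul_eq_mul] at h1
    have h2 := (mul_eq_zero.mp h1).resolve_left hc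
    rw [Multiset.prod_eq_zero_iff, Multiset.mem_map] at h2
    obtain ⟨p', hp', h3⟩ := h2
    have h4 := det_eq h3
    subst h4
    obtain ⟨N', rfl⟩ := Multiset.exists_cons_of_mem hp'
    rw [Multiset.card_cons, Multiset.card_cons] at hN
    rw [form_cons, form_cons] at h
    rw [ih N' (by omega) c]
    refine mul_left_cancel₀ (lin_ne p'.rep_nonzero) ?_
    rw [h]
    ring

lemma hev_eval {n : ℕ} {F : ℂ[X]} (hF : F.natDegree ≤ n) {r : ℂ} (s : ℂ) (hr : r ≠ 0) :
    hev n s r F = r ^ n * F.eval (s / r) := by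
  rw [hev_apply, eval_eq_sum_range' (n := n + 1) (by omega), Finset.mul_sum]
  refine Finset.sum_congr rfl fun m hm => ?_
  have h1 : m ≤ n := by
    have := Finset.mem_range.mp hm
    omega
  rw [div_pow]
  have h2 : r ^ n = r ^ (n - m) * r ^ m := by rw [← pow_add]; congr 1; omega
  rw [h2]
  have h3 : r ^ m ≠ 0 := pow_ne_zero _ hr
  field_simp

/-- a form of degree `n` with `n` different zeros -/
theorem form_of_zeros : ∀ (M : Multiset (ℙ ℂ (V 1))), M.Nodup → ∀ F : ℂ[X],
    F.natDegree ≤ Multiset.card M →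
    (∀ p ∈ M, hev (Multiset.card M) (-uc p.rep) (wc p.rep) F = 0) → ∃ c : ℂ, F = C c * form M := by
  intro M
  induction M using Multiset.induction_on with
  | empty =>
    intro _ F hF _
    rw [Multiset.card_zero] at hF
    refine ⟨F.coeff 0, ?_⟩
    rw [form, Multiset.map_zero, Multiset.prod_zero, mul_one]
    exact eq_C_of_natDegree_le_zero hF
  | cons p M ih =>
    intro hnd F hF h
    rw [Multiset.nodup_cons] at hnd
    rw [Multiset.card_cons] at hF h
    -- division by the linear factor
    have h1 : ∃ G : ℂ[X], G.natDegree ≤ Multiset.card M ∧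
        F = (C (wc p.rep) * X + C (uc p.rep)) * G := by
      have h2 := h p (Multiset.mem_cons_self p M)
      by_cases hw : wc p.rep = 0
      · have hu : uc p.rep ≠ 0 := fun h0 => p.rep_nonzero (vec_eq_zero h0 hw)
        have h3 : F.coeff (Multiset.card M + 1) = 0 := by
          rw [hev_apply, Finset.sum_eq_single (Multiset.card M + 1)] at h2
          · rw [Nat.sub_self, pow_zero, mul_one] at h2
            exact (mul_eq_zero.mp h2).resolve_left (pow_ne_zero _ (neg_ne_zero.mpr hu))
          · intro m hm hm'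
            have h4 := Finset.mem_range.mp hm
            rw [hw, zero_pow (by omega), mul_zero, zero_mul]
          · intro h4
            exact absurd (Finset.mem_range.mpr (by omega)) h4
        refine ⟨C (uc p.rep)⁻¹ * F, ?_, ?_⟩
        · rw [natDegree_C_mul (inv_ne_zero hu)]
          by_contra h4
          have h5 : F.natDegree = Multiset.card M + 1 := by omega
          rw [← h5] at h3
          have h6 : F = 0 := leadingCoeff_eq_zero.mp h3
          rw [h6, natDegree_zero] at h5
          omega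
        · rw [hw, C_0, zero_mul, zero_add, ← mul_assoc, ← C_mul, mul_inv_cancel₀ hu, C_1, one_mul]
      · rw [hev_eval hF _ hw] at h2
        have h3 : F.IsRoot (-uc p.rep / wc p.rep) :=
          (mul_eq_zero.mp h2).resolve_left (pow_ne_zero _ hw)
        obtain ⟨G, hG⟩ := dvd_iff_isRoot.mpr h3
        refine ⟨C (wc p.rep)⁻¹ * G, ?_, ?_⟩
        · rw [natDegree_C_mul (inv_ne_zero hw)]
          by_cases hG0 : G = 0
          · rw [hG0, natDegree_zero]
            exact Nat.zero_le _
          · have h4 : F.natDegree = 1 + G.natDegree := by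
              rw [hG, natDegree_mul (X_sub_C_ne_zero _) hG0, natDegree_X_sub_C]
            omega
        · conv_lhs => rw [hG]
          have h5 : (X - C (-uc p.rep / wc p.rep) : ℂ[X])
              = (C (wc p.rep) * X + C (uc p.rep)) * C (wc p.rep)⁻¹ := by
            have h6 : (C (wc p.rep) * C (wc p.rep)⁻¹ : ℂ[X]) = 1 := by
              rw [← C_mul, mul_inv_cancel₀ hw, C_1]
            have h7 : (C (-uc p.rep / wc p.rep) : ℂ[X]) = -(C (uc p.rep) * C (wc p.rep)⁻¹) := by
              rw [← C_mul, ← C_neg]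
              congr 1
              ring
            rw [h7]
            linear_combination (-X : ℂ[X]) * h6
          rw [h5, mul_assoc]
    obtain ⟨G, hG, hFG⟩ := h1
    obtain ⟨c, hc⟩ := ih hnd.2 G hG fun p' hp' => by
      have h2 := h p' (Multiset.mem_cons_of_mem hp')
      rw [hFG, hev_lin_mul hG] at h2
      refine (mul_eq_zero.mp h2).resolve_left fun h3 => hnd.1 ?_
      rw [det_eq h3]
      exact hp'
    refine ⟨c, ?_⟩
    rw [hFG, hc, form_cons]
    ring

end Pool.Agent.K9h86.EB
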