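import Mathlib
import Pool.Agent.K9h86.EB.Hv

/-!
# The eigenschemes of a binary tensor in isotropic coordinates
-/

set_option autoImplicit false

namespace Pool.Agent.K9h86.EB

open Polynomial Pool.Agent.Helper834.EC
open scoped LinearAlgebra.Projectivization

noncomputable def aa : Fin 2 → ℂ := ![-1 / 2, Complex.I / 2]
noncomputable def bb : Fin 2 → ℂ := ![1 / 2, Complex.I / 2]

lemma vec_eq (v : V 1) (j : Fin 2) : aa j * (-uc v) + bb j * wc v = v j := by
  fin_cases j
  · change (-1 / 2 : ℂ) * (-uc v) + 1 / 2 * wc v = v 0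
    rw [uc, wc]
    ring
  · change (Complex.I / 2 : ℂ) * (-uc v) + Complex.I / 2 * wc v = v 1
    rw [uc, wc]
    linear_combination (-v 1) * Complex.I_mul_I

/-- the rotated vector -/
def jv (v : V 1) : Fin 2 → ℂ := ![-v 1, v 0]

lemma jvec_eq (v : V 1) (j : Fin 2) :
    Complex.I * aa j * (-uc v) + -(Complex.I * bb j) * wc v = jv v j := by
  fin_cases j
  · change Complex.I * (-1 / 2 : ℂ) * (-uc v) + -(Complex.I * (1 / 2)) * wc v = -v 1
    rw [uc, wc]
    linear_combination (v 1) * Complex.I_mul_I
  · change Complex.I * (Complex.I / 2 : ℂ) * (-uc v) + -(Complex.I * (Complex.I / 2)) * wc v = v 0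
    rw [uc, wc]
    linear_combination (-v 0) * Complex.I_mul_I

section tens

variable {d : ℕ}

noncomputable def pc (k m : Fin d) (j : Fin 2) : ℂ := if m = k then Complex.I * aa j else aa j
noncomputable def qc (k m : Fin d) (j : Fin 2) : ℂ := if m = k then -(Complex.I * bb j) else bb j

/-- the minor, as a polynomial -/
noncomputable def FL (k : Fin d) : Tensor 1 d →ₗ[ℂ] ℂ[X] :=
  ∑ i : Fin d → Fin 2, (LinearMap.proj i).smulRight
    (∏ m, (C (pc k m (i m)) * X + C (qc k m (i m))))

lemma FL_apply (k : Fin d) (T : Tensor 1 d) :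
    FL k T = ∑ i : Fin d → Fin 2, T i • ∏ m, (C (pc k m (i m)) * X + C (qc k m (i m))) := by
  rw [FL, LinearMap.sum_apply]
  rfl

lemma FL_natDegree (k : Fin d) (T : Tensor 1 d) : (FL k T).natDegree ≤ d := by
  rw [FL_apply]
  refine natDegree_sum_le_of_forall_le _ _ fun i _ => ?_
  refine (natDegree_smul_le _ _).trans ?_
  have h := (prod_lin Finset.univ (fun m => pc k m (i m)) (fun m => qc k m (i m))).1
  simpa using h

lemma hev_FL (k : Fin d) (T : Tensor 1 d) (s r : ℂ) :
    hev d s r (FL k T) = ∑ i : Fin d → Fin 2, T i * ∏ m, (pc k m (i m) * s + qc k m (i m) * r) := by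
  rw [FL_apply, map_sum]
  refine Finset.sum_congr rfl fun i _ => ?_
  have h := (prod_lin Finset.univ (fun m => pc k m (i m)) (fun m => qc k m (i m))).2 s r
  rw [Finset.card_univ, Fintype.card_fin] at h
  rw [map_smul, h, smul_eq_mul]

lemma hev_minor (k : Fin d) (T : Tensor 1 d) (v : V 1) :
    hev d (-uc v) (wc v) (FL k T) = v 0 * contract T k v 1 - v 1 * contract T k v 0 := by
  rw [hev_FL]
  unfold Pool.Agent.Helper834.EC.contract
  rw [Finset.mul_sum, Finset.mul_sum, ← Finset.sum_sub_distrib]
  refine Finset.sum_congr rfl fun i _ => ?_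
  have h1 : ∏ m, (pc k m (i m) * (-uc v) + qc k m (i m) * wc v)
      = jv v (i k) * ∏ m ∈ Finset.univ.erase k, v (i m) := by
    rw [← Finset.mul_prod_erase Finset.univ _ (Finset.mem_univ k)]
    congr 1
    · rw [pc, qc, if_pos rfl, if_pos rfl]
      exact jvec_eq v (i k)
    · refine Finset.prod_congr rfl fun m hm => ?_
      have hm' := Finset.ne_of_mem_erase hm
      rw [pc, qc, if_neg hm', if_neg hm']
      exact vec_eq v (i m)
  rw [h1]
  have h2 : i k = 0 ∨ i k = 1 := by
    have := (i k).2
    rcases Nat.lt_or_ge (i k : ℕ) 1 with h | h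
    · left; apply Fin.ext; change (i k : ℕ) = 0; omega
    · right; apply Fin.ext; change (i k : ℕ) = 1; omega
  rcases h2 with h | h
  · rw [h, if_neg (by decide), if_pos rfl]
    change T i * (-v 1 * _) = _
    ring
  · rw [h, if_pos rfl, if_neg (by decide)]
    change T i * (v 0 * _) = _
    ring

lemma hev_zero_one (n : ℕ) (F : ℂ[X]) : hev n 0 1 F = F.coeff 0 := by
  rw [hev_apply, Finset.sum_eq_single 0]
  · simp
  · intro m _ hm
    rw [zero_pow hm, zero_mul, zero_mul]
  · intro h
    exact absurd (Finset.mem_range.mpr (by omega)) h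

lemma hev_one_zero (n : ℕ) (F : ℂ[X]) : hev n 1 0 F = F.coeff n := by
  rw [hev_apply, Finset.sum_eq_single n]
  · simp
  · intro m hm hm'
    have := Finset.mem_range.mp hm
    rw [zero_pow (by omega), mul_zero, zero_mul]
  · intro h
    exact absurd (Finset.mem_range.mpr (by omega)) h

lemma coeff_zero (T : Tensor 1 d) (k l : Fin d) : (FL k T).coeff 0 = (FL l T).coeff 0 := by
  have h : ∀ k : Fin d, (FL k T).coeff 0
      = ∑ i : Fin d → Fin 2, T i * (-Complex.I * ∏ m, bb (i m)) := by
    intro k
    rw [← hev_zero_one d, hev_FL]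
    refine Finset.sum_congr rfl fun i _ => ?_
    congr 1
    rw [← Finset.mul_prod_erase Finset.univ _ (Finset.mem_univ k),
      ← Finset.mul_prod_erase Finset.univ (fun m => bb (i m)) (Finset.mem_univ k), ← mul_assoc]
    congr 1
    · rw [pc, qc, if_pos rfl, if_pos rfl]
      ring
    · refine Finset.prod_congr rfl fun m hm => ?_
      rw [qc, if_neg (Finset.ne_of_mem_erase hm)]
      ring
  rw [h k, h l]

lemma coeff_top (T : Tensor 1 d) (k l : Fin d) : (FL k T).coeff d = (FL l T).coeff d := by
  have h : ∀ k : Fin d, (FL k T).coeff d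
      = ∑ i : Fin d → Fin 2, T i * (Complex.I * ∏ m, aa (i m)) := by
    intro k
    rw [← hev_one_zero d, hev_FL]
    refine Finset.sum_congr rfl fun i _ => ?_
    congr 1
    rw [← Finset.mul_prod_erase Finset.univ _ (Finset.mem_univ k),
      ← Finset.mul_prod_erase Finset.univ (fun m => aa (i m)) (Finset.mem_univ k), ← mul_assoc]
    congr 1
    · rw [pc, qc, if_pos rfl, if_pos rfl]
      ring
    · refine Finset.prod_congr rfl fun m hm => ?_
      rw [pc, if_neg (Finset.ne_of_mem_erase hm)]
      ring
  rw [h k, h l]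

/-- the sum of the minors -/
lemma sum_FL (T : Tensor 1 d) : ∃ f : ℂ[X],
    ∑ k, FL k T = C Complex.I * (2 * (X * derivative f) - C (d : ℂ) * f) := by
  refine ⟨∑ i : Fin d → Fin 2, T i • ∏ m, (C (aa (i m)) * X + C (bb (i m))), ?_⟩
  simp only [FL_apply]
  rw [Finset.sum_comm, map_sum, Finset.mul_sum, Finset.mul_sum, Finset.mul_sum,
    ← Finset.sum_sub_distrib, Finset.mul_sum]
  refine Finset.sum_congr rfl fun i _ => ?_
  rw [← Finset.smul_sum, derivative_smul, mul_smul_comm, mul_smul_comm, mul_smul_comm,
    ← smul_sub, mul_smul_comm]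
  congr 1
  have h1 : ∀ k : Fin d, ∏ m, (C (pc k m (i m)) * X + C (qc k m (i m)) : ℂ[X])
      = C Complex.I * (2 * (X * ((∏ m ∈ Finset.univ.erase k, (C (aa (i m)) * X + C (bb (i m)))) *
        derivative (C (aa (i k)) * X + C (bb (i k))))) -
          ∏ m, (C (aa (i m)) * X + C (bb (i m)))) := by
    intro k
    rw [← Finset.mul_prod_erase Finset.univ _ (Finset.mem_univ k),
      ← Finset.mul_prod_erase Finset.univ (fun m => (C (aa (i m)) * X + C (bb (i m)) : ℂ[X]))
        (Finset.mem_univ k)]
    have h2 : ∏ m ∈ Finset.univ.erase k, (C (pc k m (i m)) * X + C (qc k m (i m)) : ℂ[X])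
        = ∏ m ∈ Finset.univ.erase k, (C (aa (i m)) * X + C (bb (i m))) := by
      refine Finset.prod_congr rfl fun m hm => ?_
      rw [pc, qc, if_neg (Finset.ne_of_mem_erase hm), if_neg (Finset.ne_of_mem_erase hm)]
    rw [h2, pc, qc, if_pos rfl, if_pos rfl, derivative_add, derivative_C_mul, derivative_X,
      derivative_C, C_neg, C_mul, C_mul]
    ring
  rw [Finset.sum_congr rfl (fun k _ => h1 k), ← Finset.mul_sum, Finset.sum_sub_distrib,
    ← Finset.mul_sum, ← Finset.mul_sum, ← derivative_prod_finset, Finset.sum_const, Finset.card_univ,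
    Fintype.card_fin, nsmul_eq_mul, map_natCast]

lemma coeff_mid (T : Tensor 1 d) (hd : Even d) (hd0 : 2 ≤ d) :
    ∑ k, (FL k T).coeff (d / 2) = 0 := by
  obtain ⟨f, hf⟩ := sum_FL T
  rw [← finsetSum_coeff, hf, coeff_C_mul, coeff_sub, coeff_C_mul]
  obtain ⟨e, he⟩ := hd
  have h1 : d / 2 = (e - 1) + 1 := by omega
  have h2 : (2 * (X * derivative f) : ℂ[X]) = C 2 * (X * derivative f) := rfl
  rw [h1, h2, coeff_C_mul, coeff_X_mul, coeff_derivative]
  have h3 : (d : ℂ) = 2 * ((e - 1 : ℕ) + 1) := by
    have : d = 2 * ((e - 1) + 1) := by omega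
    exact_mod_cast this
  rw [h3]
  ring

end tens

section surj

variable {d : ℕ}

noncomputable def om (b : Bool) : Fin 2 → ℂ := if b then ![1, Complex.I] else ![1, -Complex.I]

open Classical in
/-- decomposable tensors -/
noncomputable def dec (s : Finset (Fin d)) : Tensor 1 d := fun i =>
  ∏ m, om (decide (m ∈ s)) (i m)

open Classical in
lemma FL_dec (k : Fin d) (s : Finset (Fin d)) :
    FL k (dec s) = C (Complex.I * (if k ∈ s then 1 else -1) * (-1) ^ s.card) * X ^ s.card := by
  rw [FL_apply]
  have h1 : ∀ i : Fin d → Fin 2, dec s i • ∏ m, (C (pc k m (i m)) * X + C (qc k m (i m)) : ℂ[X])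
      = ∏ m, (C (om (decide (m ∈ s)) (i m)) * (C (pc k m (i m)) * X + C (qc k m (i m)))) := by
    intro i
    rw [Finset.prod_mul_distrib, dec, smul_eq_C_mul, map_prod]
  rw [Finset.sum_congr rfl (fun i _ => h1 i)]
  have h2 := Finset.prod_univ_sum (fun _ : Fin d => (Finset.univ : Finset (Fin 2)))
    (fun m j => (C (om (decide (m ∈ s)) j) * (C (pc k m j) * X + C (qc k m j)) : ℂ[X]))
  rw [Fintype.piFinset_univ] at h2
  rw [← h2]
  have h3 : ∀ m : Fin d, ∑ j : Fin 2, (C (om (decide (m ∈ s)) j) *
      (C (pc k m j) * X + C (qc k m j)) : ℂ[X])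
      = (if m = k then C (Complex.I * (if k ∈ s then 1 else -1)) else 1) *
        (if m ∈ s then C (-1) * X else 1) := by
    intro m
    rw [Fin.sum_univ_two]
    by_cases hm : m ∈ s
    · have e0 : om (decide (m ∈ s)) 0 = 1 := by rw [decide_eq_true hm]; rfl
      have e1 : om (decide (m ∈ s)) 1 = Complex.I := by rw [decide_eq_true hm]; rfl
      rw [e0, e1, if_pos hm]
      by_cases hk : m = k
      · subst hk
        simp only [pc, qc, if_pos, if_pos hm]
        change (C 1 * (C (Complex.I * (-1 / 2)) * X + C (-(Complex.I * (1 / 2)))) +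
          C Complex.I * (C (Complex.I * (Complex.I / 2)) * X + C (-(Complex.I * (Complex.I / 2))))
            : ℂ[X]) = _
        have g1 : (C 1 * (C (Complex.I * (-1 / 2)) * X + C (-(Complex.I * (1 / 2)))) +
          C Complex.I * (C (Complex.I * (Complex.I / 2)) * X + C (-(Complex.I * (Complex.I / 2))))
            : ℂ[X]) = C (Complex.I * (-1 / 2) + Complex.I * (Complex.I * (Complex.I / 2))) * X +
            C (-(Complex.I * (1 / 2)) + Complex.I * (-(Complex.I * (Complex.I / 2)))) := by
          simp only [C_add, C_mul, C_1]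
          ring
        rw [g1]
        have g2 : Complex.I * (-1 / 2) + Complex.I * (Complex.I * (Complex.I / 2))
            = -Complex.I := by linear_combination (Complex.I / 2) * Complex.I_mul_I
        have g3 : -(Complex.I * (1 / 2)) + Complex.I * (-(Complex.I * (Complex.I / 2))) = 0 := by
          linear_combination (-Complex.I / 2) * Complex.I_mul_I
        rw [g2, g3, C_0, add_zero, ← mul_assoc, ← C_mul]
        congr 2
        ring
      · simp only [pc, qc, if_neg hk]
        change (C 1 * (C (-1 / 2) * X + C (1 / 2)) +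
          C Complex.I * (C (Complex.I / 2) * X + C (Complex.I / 2)) : ℂ[X]) = _
        have g1 : (C 1 * (C (-1 / 2) * X + C (1 / 2)) +
          C Complex.I * (C (Complex.I / 2) * X + C (Complex.I / 2)) : ℂ[X])
            = C (-1 / 2 + Complex.I * (Complex.I / 2)) * X +
              C (1 / 2 + Complex.I * (Complex.I / 2)) := by
          simp only [C_add, C_mul, C_1]
          ring
        rw [g1]
        have g2 : -1 / 2 + Complex.I * (Complex.I / 2) = -1 := by
          linear_combination (1 / 2) * Complex.I_mul_I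
        have g3 : 1 / 2 + Complex.I * (Complex.I / 2) = 0 := by
          linear_combination (1 / 2) * Complex.I_mul_I
        rw [g2, g3, C_0, add_zero, one_mul]
    · have e0 : om (decide (m ∈ s)) 0 = 1 := by rw [decide_eq_false hm]; rfl
      have e1 : om (decide (m ∈ s)) 1 = -Complex.I := by rw [decide_eq_false hm]; rfl
      rw [e0, e1, if_neg hm]
      by_cases hk : m = k
      · subst hk
        simp only [pc, qc, if_pos, if_neg hm]
        change (C 1 * (C (Complex.I * (-1 / 2)) * X + C (-(Complex.I * (1 / 2)))) +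
          C (-Complex.I) * (C (Complex.I * (Complex.I / 2)) * X +
            C (-(Complex.I * (Complex.I / 2)))) : ℂ[X]) = _
        have g1 : (C 1 * (C (Complex.I * (-1 / 2)) * X + C (-(Complex.I * (1 / 2)))) +
          C (-Complex.I) * (C (Complex.I * (Complex.I / 2)) * X +
            C (-(Complex.I * (Complex.I / 2)))) : ℂ[X])
            = C (Complex.I * (-1 / 2) + -Complex.I * (Complex.I * (Complex.I / 2))) * X +
            C (-(Complex.I * (1 / 2)) + -Complex.I * (-(Complex.I * (Complex.I / 2)))) := by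
          simp only [C_add, C_mul, C_1]
          ring
        rw [g1]
        have g2 : Complex.I * (-1 / 2) + -Complex.I * (Complex.I * (Complex.I / 2)) = 0 := by
          linear_combination (-Complex.I / 2) * Complex.I_mul_I
        have g3 : -(Complex.I * (1 / 2)) + -Complex.I * (-(Complex.I * (Complex.I / 2)))
            = -Complex.I := by
          linear_combination (Complex.I / 2) * Complex.I_mul_I
        rw [g2, g3, C_0, zero_mul, zero_add, mul_one]
        congr 1
        ring
      · simp only [pc, qc, if_neg hk]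
        change (C 1 * (C (-1 / 2) * X + C (1 / 2)) +
          C (-Complex.I) * (C (Complex.I / 2) * X + C (Complex.I / 2)) : ℂ[X]) = _
        have g1 : (C 1 * (C (-1 / 2) * X + C (1 / 2)) +
          C (-Complex.I) * (C (Complex.I / 2) * X + C (Complex.I / 2)) : ℂ[X])
            = C (-1 / 2 + -Complex.I * (Complex.I / 2)) * X +
              C (1 / 2 + -Complex.I * (Complex.I / 2)) := by
          simp only [C_add, C_mul, C_1]
          ring
        rw [g1]
        have g2 : -1 / 2 + -Complex.I * (Complex.I / 2) = 0 := by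
          linear_combination (-1 / 2) * Complex.I_mul_I
        have g3 : 1 / 2 + -Complex.I * (Complex.I / 2) = 1 := by
          linear_combination (-1 / 2) * Complex.I_mul_I
        rw [g2, g3, C_0, zero_mul, zero_add, C_1, one_mul]
  rw [Finset.prod_congr rfl (fun m _ => h3 m), Finset.prod_mul_distrib, Finset.prod_ite_eq',
    if_pos (Finset.mem_univ k), Finset.prod_ite, Finset.prod_const, Finset.prod_const_one,
    mul_one, Finset.filter_univ_mem, mul_pow, ← C_pow, ← mul_assoc, ← C_mul]

end surj

end Pool.Agent.K9h86.EB
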