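import Mathlib
import Pool.Agent.K9h86.EB.Tn

/-!
# The equations hold
-/

set_option autoImplicit false
set_option maxHeartbeats 400000

namespace Pool.Agent.K9h86.EB

open Polynomial Pool.Agent.Helper834.EC
open scoped LinearAlgebra.Projectivization

lemma D_one {d : ℕ} (hd : 3 ≤ d) : D 1 d = d := by
  obtain ⟨e, rfl⟩ : ∃ e, d = e + 3 := ⟨d - 3, by omega⟩
  rw [D]
  have h1 : (e + 3 - 1) ^ (1 + 1) - 1 = (e + 3) * (e + 1) := by
    have h2 : e + 3 - 1 = e + 2 := by omega
    rw [h2]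
    have h3 : (e + 2) ^ (1 + 1) = (e + 3) * (e + 1) + 1 := by ring
    rw [h3]
    omega
  have h4 : e + 3 - 2 = e + 1 := by omega
  rw [h1, h4]
  exact Nat.mul_div_cancel _ (by omega)

lemma prod_minor (M : Multiset (ℙ ℂ (V 1))) (v : V 1) :
    (M.map fun p => v 0 * p.rep 1 - v 1 * p.rep 0).prod
      = (-Complex.I / 2) ^ Multiset.card M * hev (Multiset.card M) (-uc v) (wc v) (form M) := by
  rw [hev_form]
  induction M using Multiset.induction_on with
  | empty => simp
  | cons p M ih =>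
    rw [Multiset.map_cons, Multiset.prod_cons, ih, Multiset.map_cons, Multiset.prod_cons,
      Multiset.card_cons, pow_succ]
    have h1 : v 0 * p.rep 1 - v 1 * p.rep 0
        = (-Complex.I / 2) * (wc p.rep * (-uc v) + uc p.rep * wc v) := by
      rw [uc, uc, wc, wc]
      linear_combination (v 0 * p.rep 1 - v 1 * p.rep 0) * Complex.I_mul_I
    rw [h1]
    ring

lemma card_conf {d : ℕ} (Z : Conf 1 d) (k : Fin d) :
    Multiset.card (Z k : Multiset (ℙ ℂ (V 1))) = D 1 d := (Z k).2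

lemma sum_mid {d : ℕ} (x U : Fin d → ℂ) (c : ℂ) (hU : ∀ l, U l = c) (hx : ∑ k, x k = 0) :
    ∑ k, x k * ∏ l ∈ Finset.univ.erase k, U l = 0 := by
  have h1 : ∀ k : Fin d, x k * ∏ l ∈ Finset.univ.erase k, U l = x k * c ^ (d - 1) := by
    intro k
    rw [Finset.prod_congr rfl (fun l _ => hU l), Finset.prod_const,
      Finset.card_erase_of_mem (Finset.mem_univ k), Finset.card_univ, Fintype.card_fin]
  rw [Finset.sum_congr rfl (fun k _ => h1 k), ← Finset.sum_mul, hx, zero_mul]

section one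

variable {d : ℕ}

lemma minor_iff (T : Tensor 1 d) (k : Fin d) (M : Multiset (ℙ ℂ (V 1)))
    (hM : Multiset.card M = d) :
    (∃ c : ℂ, c ≠ 0 ∧ ∀ v : V 1, v 0 * contract T k v 1 - v 1 * contract T k v 0 =
      c * (M.map fun p => v 0 * p.rep 1 - v 1 * p.rep 0).prod) ↔
    ∃ c : ℂ, c ≠ 0 ∧ FL k T = C c * form M := by
  have hI : (-Complex.I / 2) ^ d ≠ 0 :=
    pow_ne_zero _ (div_ne_zero (neg_ne_zero.mpr Complex.I_ne_zero) two_ne_zero)
  constructor
  · rintro ⟨c, hc, h⟩
    refine ⟨c * (-Complex.I / 2) ^ d, mul_ne_zero hc hI, ?_⟩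
    refine Polynomial.funext fun s => ?_
    let v : V 1 := ![aa 0 * s + bb 0, aa 1 * s + bb 1]
    have hu : -uc v = s := by
      change -((-1 / 2 * s + 1 / 2) + Complex.I * (Complex.I / 2 * s + Complex.I / 2)) = s
      linear_combination (-(s + 1) / 2) * Complex.I_mul_I
    have hw : wc v = 1 := by
      change (-1 / 2 * s + 1 / 2) - Complex.I * (Complex.I / 2 * s + Complex.I / 2) = 1
      linear_combination (-(s + 1) / 2) * Complex.I_mul_I
    have h1 := h v
    rw [← hev_minor, prod_minor, hM, hu, hw, hev_eval (FL_natDegree k T) s one_ne_zero,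
      hev_eval ((form_natDegree M).trans hM.le) s one_ne_zero, one_pow, one_mul, one_mul,
      div_one] at h1
    rw [h1, eval_mul, eval_C]
    ring
  · rintro ⟨c, hc, h⟩
    refine ⟨c / (-Complex.I / 2) ^ d, div_ne_zero hc hI, fun v => ?_⟩
    rw [← hev_minor, prod_minor, hM, h, ← smul_eq_C_mul, map_smul, smul_eq_mul]
    field_simp

lemma eigen_iff (T : Tensor 1 d) (k : Fin d) (p : ℙ ℂ (V 1)) :
    IsEigenpoint T k p ↔ hev d (-uc p.rep) (wc p.rep) (FL k T) = 0 := by
  rw [hev_minor]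
  constructor
  · intro h
    rw [h 0 1]
    ring
  · intro h a b
    have h2 : ∀ c : Fin (1 + 1), c = 0 ∨ c = 1 := by
      intro c
      have := c.2
      rcases Nat.lt_or_ge (c : ℕ) 1 with h | h
      · left; apply Fin.ext; change (c : ℕ) = 0; omega
      · right; apply Fin.ext; change (c : ℕ) = 1; omega
    rcases h2 a with rfl | rfl <;> rcases h2 b with rfl | rfl
    · ring
    · linear_combination h
    · linear_combination -h
    · ring

lemma exists_notMem (M : Multiset (ℙ ℂ (V 1))) : ∃ p : ℙ ℂ (V 1), p ∉ M := by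
  by_contra h
  push Not at h
  have hne : ∀ z : ℂ, (![1, z] : V 1) ≠ 0 := fun z h0 => one_ne_zero (congrFun h0 0)
  have hinj : Function.Injective fun z : ℂ => Projectivization.mk ℂ (![1, z] : V 1) (hne z) := by
    intro z z' hz
    rw [Projectivization.mk_eq_mk_iff'] at hz
    obtain ⟨a, ha⟩ := hz
    have h1 : a * 1 = 1 := congrFun ha 0
    have h2 : a * z' = z := congrFun ha 1
    rw [mul_one] at h1
    rw [h1, one_mul] at h2
    exact h2.symm
  have hfin : (Set.univ : Set (ℙ ℂ (V 1))).Finite := by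
    classical
    exact (M.toFinset.finite_toSet).subset fun p _ => by
      rw [Finset.mem_coe, Multiset.mem_toFinset]
      exact h p
  have : Finite (ℙ ℂ (V 1)) := Set.finite_univ_iff.mp hfin
  exact not_injective_infinite_finite _ hinj

theorem eigen_scheme (hd : 3 ≤ d) : eigenConfs 1 d ⊆ schemeConfs d := by
  rintro Z ⟨T, hT⟩
  refine ⟨T, fun k => ?_⟩
  have hcard : Multiset.card (Z k : Multiset (ℙ ℂ (V 1))) = d := (card_conf Z k).trans (D_one hd)
  rw [minor_iff T k _ hcard]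
  obtain ⟨c, hc⟩ := form_of_zeros (Z k : Multiset (ℙ ℂ (V 1))) (hT k).1 (FL k T)
    (by rw [hcard]; exact FL_natDegree k T) (fun p hp => by
      rw [hcard, ← eigen_iff]
      exact ((hT k).2 p).mp hp)
  refine ⟨c, ?_, hc⟩
  rintro rfl
  obtain ⟨p, hp⟩ := exists_notMem (Z k : Multiset (ℙ ℂ (V 1)))
  apply hp
  refine ((hT k).2 p).mpr ?_
  rw [eigen_iff, hc, C_0, zero_mul, map_zero]

lemma compatible_mul (Q : Fin d → ℂ[X]) (κ : Fin d → ℂ) (hκ : ∀ k, κ k ≠ 0) :
    Compatible d (fun k => C (κ k) * Q k) ↔ Compatible d Q := by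
  have hp : (∏ k, κ k) ≠ 0 := Finset.prod_ne_zero_iff.mpr fun k _ => hκ k
  have key : ∀ m : ℕ, ∑ k, (C (κ k) * Q k).coeff (d / 2) *
      ∏ l ∈ Finset.univ.erase k, (C (κ l) * Q l).coeff m
      = (∏ k, κ k) * ∑ k, (Q k).coeff (d / 2) * ∏ l ∈ Finset.univ.erase k, (Q l).coeff m := by
    intro m
    rw [Finset.mul_sum]
    refine Finset.sum_congr rfl fun k _ => ?_
    simp only [coeff_C_mul]
    rw [Finset.prod_mul_distrib, ← Finset.mul_prod_erase Finset.univ κ (Finset.mem_univ k)]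
    ring
  rw [Compatible, Compatible]
  refine and_congr ?_ ?_
  · refine forall_congr' fun k => forall_congr' fun l => ?_
    simp only [coeff_C_mul]
    constructor
    · intro h
      refine mul_left_cancel₀ (mul_ne_zero (hκ k) (hκ l)) ?_
      linear_combination h
    · intro h
      linear_combination (κ k * κ l) * h
  · refine imp_congr_right fun _ => ?_
    rw [key 0, key d]
    simp only [mul_eq_zero, hp, false_or]

lemma compatible_FL (hd : 3 ≤ d) (T : Tensor 1 d) : Compatible d fun k => FL k T := by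
  refine ⟨fun k l => ?_, fun hev => ⟨?_, ?_⟩⟩
  · exact congrArg₂ (· * ·) (coeff_zero T k l) (coeff_top T l k)
  · exact sum_mid (fun k => (FL k T).coeff (d / 2)) (fun l => (FL l T).coeff 0)
      ((FL ⟨0, by omega⟩ T).coeff 0) (fun l => coeff_zero T l _) (coeff_mid T hev (by omega))
  · exact sum_mid (fun k => (FL k T).coeff (d / 2)) (fun l => (FL l T).coeff d)
      ((FL ⟨0, by omega⟩ T).coeff d) (fun l => coeff_top T l _) (coeff_mid T hev (by omega))

theorem scheme_cut (hd : 3 ≤ d) : schemeConfs d ⊆ cutOut d := by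
  rintro Z ⟨T, hT⟩
  have h1 : ∀ k, ∃ c : ℂ, c ≠ 0 ∧ FL k T = C c * form (Z k : Multiset (ℙ ℂ (V 1))) := by
    intro k
    exact (minor_iff T k _ ((card_conf Z k).trans (D_one hd))).mp (hT k)
  choose c hc h2 using h1
  have h3 := compatible_FL hd T
  have h4 : (fun k => FL k T) = fun k => C (c k) * form (Z k : Multiset (ℙ ℂ (V 1))) :=
    funext h2
  rw [h4, compatible_mul _ c hc] at h3
  exact h3

end one

section closed

variable {d : ℕ}

/-- the forms with given coordinates of the zeros -/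
noncomputable def Qy (y : (Fin d × Fin (D 1 d)) × Fin (1 + 1) → ℂ) (k : Fin d) : ℂ[X] :=
  ∏ j, (C (wc fun a => y ((k, j), a)) * X + C (uc fun a => y ((k, j), a)))

lemma form_toConf (y : Coord 1 d) (k : Fin d) :
    ∃ c : ℂ, c ≠ 0 ∧ form (toConf y k : Multiset (ℙ ℂ (V 1))) = C c * Qy y.1 k := by
  have h1 : ∀ j : Fin (D 1 d), ∃ a : ℂˣ, a • (fun b => y.1 ((k, j), b) : V 1) =
      (Projectivization.mk ℂ (fun b => y.1 ((k, j), b)) (y.2 (k, j))).rep := fun j =>
    Projectivization.exists_smul_eq_mk_rep ℂ _ (y.2 (k, j))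
  choose a ha using h1
  refine ⟨∏ j, (a j : ℂ), Finset.prod_ne_zero_iff.mpr fun j _ => (a j).ne_zero, ?_⟩
  have h2 : form (toConf y k : Multiset (ℙ ℂ (V 1))) = ∏ j : Fin (D 1 d),
      (C (wc (Projectivization.mk ℂ (fun b => y.1 ((k, j), b)) (y.2 (k, j))).rep) * X +
        C (uc (Projectivization.mk ℂ (fun b => y.1 ((k, j), b)) (y.2 (k, j))).rep)) := by
    change ((Finset.univ.val.map fun j : Fin (D 1 d) =>
      Projectivization.mk ℂ (fun b => y.1 ((k, j), b)) (y.2 (k, j))).map _).prod = _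
    rw [Multiset.map_map]
    rfl
  rw [h2, map_prod, Qy, ← Finset.prod_mul_distrib]
  refine Finset.prod_congr rfl fun j _ => ?_
  rw [← ha j]
  have h3 : wc (a j • (fun b => y.1 ((k, j), b) : V 1))
      = (a j : ℂ) * wc fun b => y.1 ((k, j), b) := by
    change (a j : ℂ) * _ - Complex.I * ((a j : ℂ) * _) = (a j : ℂ) * (_ - Complex.I * _)
    ring
  have h4 : uc (a j • (fun b => y.1 ((k, j), b) : V 1))
      = (a j : ℂ) * uc fun b => y.1 ((k, j), b) := by
    change (a j : ℂ) * _ + Complex.I * ((a j : ℂ) * _) = (a j : ℂ) * (_ + Complex.I * _)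
    ring
  rw [h3, h4, C_mul, C_mul]
  ring

/-- the generic forms -/
noncomputable def Qmv (d : ℕ) (k : Fin d) :
    Polynomial (MvPolynomial ((Fin d × Fin (D 1 d)) × Fin (1 + 1)) ℂ) :=
  ∏ j : Fin (D 1 d), (C (MvPolynomial.X ((k, j), 0) - MvPolynomial.C Complex.I *
    MvPolynomial.X ((k, j), 1)) * X + C (MvPolynomial.X ((k, j), 0) + MvPolynomial.C Complex.I *
    MvPolynomial.X ((k, j), 1)))

lemma Qmv_map (y : (Fin d × Fin (D 1 d)) × Fin (1 + 1) → ℂ) (k : Fin d) :
    (Qmv d k).map (MvPolynomial.eval y) = Qy y k := by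
  rw [Qmv, Qy, Polynomial.map_prod]
  refine Finset.prod_congr rfl fun j _ => ?_
  rw [Polynomial.map_add, Polynomial.map_mul, Polynomial.map_X, Polynomial.map_C,
    Polynomial.map_C, map_sub, map_add, map_mul, MvPolynomial.eval_X, MvPolynomial.eval_X,
    MvPolynomial.eval_C]
  rfl

lemma Qmv_coeff (y : (Fin d × Fin (D 1 d)) × Fin (1 + 1) → ℂ) (k : Fin d) (m : ℕ) :
    MvPolynomial.eval y ((Qmv d k).coeff m) = (Qy y k).coeff m := by
  rw [← Qmv_map, Polynomial.coeff_map]

lemma isClosed_aff : IsClosed {y : Aff ((Fin d × Fin (D 1 d)) × Fin (1 + 1)) |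
    Compatible d (Qy y)} := by
  have h0 : ∀ S : Set (MvPolynomial ((Fin d × Fin (D 1 d)) × Fin (1 + 1)) ℂ),
      IsClosed (zeros S) := by
    intro S
    rw [← isOpen_compl_iff]
    change ∃ S', (zeros S)ᶜᶜ = zeros S'
    exact ⟨S, compl_compl _⟩
  let S : Set (MvPolynomial ((Fin d × Fin (D 1 d)) × Fin (1 + 1)) ℂ) :=
    {f | (∃ k l, f = (Qmv d k).coeff 0 * (Qmv d l).coeff d - (Qmv d l).coeff 0 *
      (Qmv d k).coeff d) ∨ (Even d ∧
      (f = ∑ k, (Qmv d k).coeff (d / 2) * ∏ l ∈ Finset.univ.erase k, (Qmv d l).coeff 0 ∨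
      f = ∑ k, (Qmv d k).coeff (d / 2) * ∏ l ∈ Finset.univ.erase k, (Qmv d l).coeff d))}
  have h1 : {y : Aff ((Fin d × Fin (D 1 d)) × Fin (1 + 1)) | Compatible d (Qy y)} = zeros S := by
    ext y
    change Compatible d (Qy y) ↔ ∀ f ∈ S, MvPolynomial.eval (fun i => y i) f = 0
    have hy : (fun i => y i) = (y : (Fin d × Fin (D 1 d)) × Fin (1 + 1) → ℂ) := rfl
    rw [hy]
    constructor
    · rintro ⟨h1, h2⟩ f (⟨k, l, rfl⟩ | ⟨he, rfl | rfl⟩)
      · rw [map_sub, map_mul, map_mul, Qmv_coeff, Qmv_coeff, Qmv_coeff, Qmv_coeff, h1 k l,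
          sub_self]
      · rw [map_sum]
        simp only [map_mul, map_prod, Qmv_coeff]
        exact (h2 he).1
      · rw [map_sum]
        simp only [map_mul, map_prod, Qmv_coeff]
        exact (h2 he).2
    · intro h
      refine ⟨fun k l => ?_, fun he => ⟨?_, ?_⟩⟩
      · have h2 := h _ (Or.inl ⟨k, l, rfl⟩)
        rw [map_sub, map_mul, map_mul, Qmv_coeff, Qmv_coeff, Qmv_coeff, Qmv_coeff] at h2
        exact sub_eq_zero.mp h2
      · have h2 := h _ (Or.inr ⟨he, Or.inl rfl⟩)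
        rw [map_sum] at h2
        simp only [map_mul, map_prod, Qmv_coeff] at h2
        exact h2
      · have h2 := h _ (Or.inr ⟨he, Or.inr rfl⟩)
        rw [map_sum] at h2
        simp only [map_mul, map_prod, Qmv_coeff] at h2
        exact h2
  rw [h1]
  exact h0 S

lemma cut_iff (y : Coord 1 d) : toConf y ∈ cutOut d ↔ Compatible d (Qy y.1) := by
  choose c hc h using form_toConf y
  have h1 : (fun k => form (toConf y k : Multiset (ℙ ℂ (V 1)))) = fun k => C (c k) * Qy y.1 k :=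
    funext h
  change Compatible d (fun k => form (toConf y k : Multiset (ℙ ℂ (V 1)))) ↔ _
  rw [h1, compatible_mul _ c hc]

theorem isClosed_cutOut : IsClosed (cutOut d) := by
  refine isClosed_coinduced.mpr ?_
  have h1 : (toConf ⁻¹' cutOut d : Set (Coord 1 d)) = Subtype.val ⁻¹'
      {y : Aff ((Fin d × Fin (D 1 d)) × Fin (1 + 1)) | Compatible d (Qy y)} := by
    ext y
    exact cut_iff y
  rw [h1]
  exact isClosed_aff.preimage continuous_subtype_val

end closed

end Pool.Agent.K9h86.EB
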