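import Mathlib
import Pool.Agent.K9h86.EB.Tn

/-!
# The linear relations between the minors of a binary tensor
-/

set_option autoImplicit false

namespace Pool.Agent.K9h86.EB

open Polynomial Pool.Agent.Helper834.EC
open scoped LinearAlgebra.Projectivization

variable {d : ℕ}

lemma exists_between (k l : Fin d) (hkl : k ≠ l) {a : ℕ} (ha : 0 < a) (ha' : a < d) :
    ∃ s : Finset (Fin d), k ∉ s ∧ l ∉ s ∧ s.card + 1 = a := by
  classical
  have h1 : ((Finset.univ.erase k).erase l).card = d - 2 := by
    rw [Finset.card_erase_of_mem (Finset.mem_erase.mpr ⟨hkl.symm, Finset.mem_univ l⟩),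
      Finset.card_erase_of_mem (Finset.mem_univ k), Finset.card_univ, Fintype.card_fin]
    omega
  obtain ⟨s, hs, hc⟩ := Finset.exists_subset_card_eq (s := (Finset.univ.erase k).erase l)
    (n := a - 1) (by rw [h1]; omega)
  refine ⟨s, fun h => ?_, fun h => ?_, by omega⟩
  · exact Finset.notMem_erase k _ (Finset.mem_of_mem_erase (hs h))
  · exact Finset.notMem_erase l _ (hs h)

/-- every tuple of polynomials which satisfies the relations comes from a tensor -/
theorem exists_tensor (G : Fin d → ℕ → ℂ) (h0 : ∀ k l, G k 0 = G l 0)
    (hd : ∀ k l, G k d = G l d) (hm : Even d → ∑ k, G k (d / 2) = 0) :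
    ∃ T : Tensor 1 d, ∀ k, ∀ m ≤ d, (FL k T).coeff m = G k m := by
  classical
  let Λ : Tensor 1 d →ₗ[ℂ] (Fin d × Fin (d + 1) → ℂ) :=
    LinearMap.pi fun x => (lcoeff ℂ (x.2 : ℕ)) ∘ₗ FL x.1
  let g : Fin d × Fin (d + 1) → ℂ := fun x => G x.1 x.2
  suffices h : g ∈ LinearMap.range Λ by
    obtain ⟨T, hT⟩ := h
    refine ⟨T, fun k m hmd => ?_⟩
    exact congrFun hT (k, ⟨m, by omega⟩)
  by_contra hg
  obtain ⟨φ, hφ1, hφ2⟩ := Submodule.exists_dual_map_eq_bot_of_notMem hg inferInstance
  apply hφ1
  -- the functional
  let f : Fin d → Fin (d + 1) → ℂ := fun k m => φ (fun j => if (k, m) = j then 1 else 0)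
  have hφ : ∀ G' : Fin d × Fin (d + 1) → ℂ, φ G' = ∑ m, ∑ k, G' (k, m) * f k m := by
    intro G'
    rw [LinearMap.pi_apply_eq_sum_univ φ G', Fintype.sum_prod_type_right]
    rfl
  have hker : ∀ T : Tensor 1 d, φ (Λ T) = 0 := by
    intro T
    have h1 : φ (Λ T) ∈ Submodule.map φ (LinearMap.range Λ) := ⟨Λ T, ⟨T, rfl⟩, rfl⟩
    rw [hφ2] at h1
    exact h1
  -- the decomposable tensors
  have hs : ∀ (s : Finset (Fin d)) (a : Fin (d + 1)), s.card = a →
      ∑ k, (if k ∈ s then 1 else -1) * f k a = 0 := by
    intro s a ha
    have h1 := hker (dec s)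
    rw [hφ, Finset.sum_eq_single a] at h1
    · have h2 : ∀ k, Λ (dec s) (k, a) * f k a
          = (Complex.I * (-1) ^ (a : ℕ)) * ((if k ∈ s then 1 else -1) * f k a) := by
        intro k
        change (FL k (dec s)).coeff (a : ℕ) * _ = _
        rw [FL_dec, coeff_C_mul, coeff_X_pow, ha, if_pos rfl]
        ring
      rw [Finset.sum_congr rfl (fun k _ => h2 k), ← Finset.mul_sum] at h1
      refine (mul_eq_zero.mp h1).resolve_left ?_
      exact mul_ne_zero Complex.I_ne_zero (pow_ne_zero _ (by norm_num))
    · intro b _ hb
      refine Finset.sum_eq_zero fun k _ => ?_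
      change (FL k (dec s)).coeff (b : ℕ) * _ = _
      rw [FL_dec, coeff_C_mul, coeff_X_pow, ha, if_neg (fun h => hb (Fin.ext h)), mul_zero,
        zero_mul]
    · intro h
      exact absurd (Finset.mem_univ a) h
  rw [hφ]
  refine Finset.sum_eq_zero fun a _ => ?_
  change ∑ k, G k a * f k a = 0
  rcases Nat.eq_zero_or_pos (a : ℕ) with ha | ha
  · -- the coefficient of `t ^ 0`
    have h1 := hs ∅ a (by rw [Finset.card_empty, ha])
    rcases isEmpty_or_nonempty (Fin d) with he | ⟨⟨k0⟩⟩
    · exact Finset.sum_eq_zero fun k _ => he.elim k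
    · have h2 : ∀ k, G k a * f k a = (-G k0 0) * ((if k ∈ (∅ : Finset (Fin d)) then 1 else -1) *
          f k a) := by
        intro k
        rw [ha, h0 k k0, if_neg (Finset.notMem_empty k)]
        ring
      rw [Finset.sum_congr rfl (fun k _ => h2 k), ← Finset.mul_sum, h1, mul_zero]
  · rcases Nat.lt_or_ge (a : ℕ) d with had | had
    · -- the coefficients in the middle
      have h1 : ∀ k l, f k a = f l a := by
        intro k l
        by_cases hkl : k = l
        · rw [hkl]
        · obtain ⟨s, hk, hl, hc⟩ := exists_between k l hkl ha had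
          have e1 := hs (insert k s) a (by rw [Finset.card_insert_of_notMem hk, hc])
          have e2 := hs (insert l s) a (by rw [Finset.card_insert_of_notMem hl, hc])
          have e3 : ∑ j, (((if j ∈ insert k s then 1 else -1) * f j a) -
              ((if j ∈ insert l s then 1 else -1) * f j a)) = 0 := by
            rw [Finset.sum_sub_distrib, e1, e2, sub_zero]
          have e4 : ∀ j, (((if j ∈ insert k s then 1 else -1) * f j a) -
              ((if j ∈ insert l s then 1 else -1) * f j a) : ℂ)
              = (if j = k then 2 * f k a else 0) - (if j = l then 2 * f l a else 0) := by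
            intro j
            by_cases hjk : j = k
            · subst hjk
              rw [if_pos (Finset.mem_insert_self j s), if_neg (by
                rw [Finset.mem_insert]
                push Not
                exact ⟨hkl, hk⟩), if_pos rfl, if_neg hkl]
              ring
            · by_cases hjl : j = l
              · subst hjl
                rw [if_pos (Finset.mem_insert_self j s), if_neg (by
                  rw [Finset.mem_insert]
                  push Not
                  exact ⟨hjk, hl⟩), if_neg hjk, if_pos rfl]
                ring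
              · rw [if_neg hjk, if_neg hjl]
                by_cases hjs : j ∈ s
                · rw [if_pos (Finset.mem_insert_of_mem hjs), if_pos (Finset.mem_insert_of_mem hjs)]
                  ring
                · rw [if_neg (by rw [Finset.mem_insert]; push Not; exact ⟨hjk, hjs⟩),
                    if_neg (by rw [Finset.mem_insert]; push Not; exact ⟨hjl, hjs⟩)]
                  ring
          rw [Finset.sum_congr rfl (fun j _ => e4 j), Finset.sum_sub_distrib,
            Finset.sum_ite_eq' , Finset.sum_ite_eq', if_pos (Finset.mem_univ k),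
            if_pos (Finset.mem_univ l)] at e3
          linear_combination e3 / 2
      have hk0 : 0 < d := by omega
      let k0 : Fin d := ⟨0, hk0⟩
      obtain ⟨s, -, hc⟩ := Finset.exists_subset_card_eq (s := (Finset.univ : Finset (Fin d)))
        (n := a) (by rw [Finset.card_univ, Fintype.card_fin]; omega)
      have h2 := hs s a hc
      have h3 : ∀ k, (if k ∈ s then 1 else -1) * f k a
          = (2 * (if k ∈ s then 1 else 0) - 1) * f k0 a := by
        intro k
        rw [h1 k k0]
        split_ifs <;> ring
      rw [Finset.sum_congr rfl (fun k _ => h3 k), ← Finset.sum_mul, Finset.sum_sub_distrib,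
        ← Finset.mul_sum, Finset.sum_ite_mem, Finset.univ_inter, Finset.sum_const,
        Finset.sum_const, Finset.card_univ, Fintype.card_fin, hc] at h2
      have h4 : ∀ k, G k a * f k a = G k a * f k0 a := fun k => by rw [h1 k k0]
      rw [Finset.sum_congr rfl (fun k _ => h4 k), ← Finset.sum_mul]
      rcases mul_eq_zero.mp h2 with h5 | h5
      · have h6 : 2 * (a : ℕ) = d := by
          have : (2 * ((a : ℕ) : ℂ)) = d := by
            simp only [nsmul_eq_mul, mul_one] at h5
            linear_combination h5
          exact_mod_cast this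
        have h7 : (a : ℕ) = d / 2 := by omega
        rw [h7, hm ⟨a, by omega⟩, zero_mul]
      · rw [h5, mul_zero]
    · -- the coefficient of `t ^ d`
      have had' : (a : ℕ) = d := by
        have := a.2
        omega
      have h1 := hs Finset.univ a (by rw [Finset.card_univ, Fintype.card_fin, had'])
      rcases isEmpty_or_nonempty (Fin d) with he | ⟨⟨k0⟩⟩
      · exact Finset.sum_eq_zero fun k _ => he.elim k
      · have h2 : ∀ k, G k a * f k a = (G k0 d) *
            ((if k ∈ (Finset.univ : Finset (Fin d)) then 1 else -1) * f k a) := by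
          intro k
          rw [had', hd k k0, if_pos (Finset.mem_univ k)]
          ring
        rw [Finset.sum_congr rfl (fun k _ => h2 k), ← Finset.mul_sum, h1, mul_zero]

end Pool.Agent.K9h86.EB
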