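import Mathlib
import Pool.Agent.K9h86.EB.Pa
import Pool.Agent.K9h86.EB.Sj
import Pool.Agent.K9h86.EB.Ap

/-!
# Realisation of tuples of forms by tensors
-/

set_option autoImplicit false
set_option maxHeartbeats 400000

namespace Pool.Agent.K9h86.EB

open Polynomial Pool.Agent.Helper834.EC Filter Topology
open scoped LinearAlgebra.Projectivization

lemma exists_fun {A : Type} (s : Multiset A) : ∃ f : Fin (Multiset.card s) → A,
    Finset.univ.val.map f = s := by
  induction s using Quotient.inductionOn with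
  | h l => exact ⟨l.get, (Fin.univ_val_map l.get).trans
      (congrArg (fun l' : List A => (l' : Multiset A)) (List.ofFn_get l))⟩

lemma exists_fun' {A : Type} (s : Multiset A) {n : ℕ} (h : Multiset.card s = n) :
    ∃ f : Fin n → A, Finset.univ.val.map f = s := by
  subst h
  exact exists_fun s

/-- the vector with the affine coordinate `z` -/
noncomputable def vz (z : ℂ) : V 1 := ![aa 0 * z + bb 0, aa 1 * z + bb 1]

lemma uc_vz (z : ℂ) : uc (vz z) = -z := by
  change (-1 / 2 * z + 1 / 2) + Complex.I * (Complex.I / 2 * z + Complex.I / 2) = -z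
  linear_combination ((z + 1) / 2) * Complex.I_mul_I

lemma wc_vz (z : ℂ) : wc (vz z) = 1 := by
  change (-1 / 2 * z + 1 / 2) - Complex.I * (Complex.I / 2 * z + Complex.I / 2) = 1
  linear_combination (-(z + 1) / 2) * Complex.I_mul_I

lemma uc_smul (c : ℂ) (v : V 1) : uc (c • v) = c * uc v := by
  change c * v 0 + Complex.I * (c * v 1) = c * (v 0 + Complex.I * v 1)
  ring

lemma wc_smul (c : ℂ) (v : V 1) : wc (c • v) = c * wc v := by
  change c * v 0 - Complex.I * (c * v 1) = c * (v 0 - Complex.I * v 1)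
  ring

lemma vz_ne (z : ℂ) : vz z ≠ 0 := by
  intro h
  have h1 := wc_vz z
  rw [h] at h1
  have h2 : wc (0 : V 1) = 0 := by
    change (0 : ℂ) - Complex.I * 0 = 0
    ring
  rw [h2] at h1
  exact zero_ne_one h1

/-- the polynomials have simple roots in general -/
lemma nodup_cofinite (g : ℂ[X]) (h0 : g.coeff 0 ≠ 0) :
    ∀ᶠ η in (cofinite : Filter ℂ), (g + C η * X).roots.Nodup := by
  classical
  let h : ℂ[X] := X * derivative g - g
  have hh : h ≠ 0 := by
    intro h1
    have h2 := congrArg (fun F => F.coeff 0) h1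
    simp only [h, coeff_sub, mul_coeff_zero, coeff_X_zero, zero_mul, zero_sub] at h2
    exact h0 (neg_eq_zero.mp h2)
  rw [eventually_cofinite]
  refine Set.Finite.subset ((h.roots.toFinset.image fun z => -(derivative g).eval z).finite_toSet)
    fun η hη => ?_
  change ¬ (g + C η * X).roots.Nodup at hη
  rw [Multiset.nodup_iff_count_le_one] at hη
  push Not at hη
  obtain ⟨z, hz⟩ := hη
  rw [count_roots] at hz
  have hp : g + C η * X ≠ 0 := by
    intro h1
    have h2 := congrArg (fun F => F.coeff 0) h1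
    simp only [coeff_add, mul_coeff_zero, coeff_X_zero, mul_zero, add_zero] at h2
    exact h0 h2
  rw [one_lt_rootMultiplicity_iff_isRoot hp] at hz
  obtain ⟨h1, h2⟩ := hz
  rw [IsRoot.def, eval_add, eval_mul, eval_C, eval_X] at h1
  rw [IsRoot.def, derivative_add, derivative_C_mul, derivative_X, mul_one, eval_add,
    eval_C] at h2
  rw [Finset.mem_coe, Finset.mem_image]
  refine ⟨z, ?_, by linear_combination -h2⟩
  rw [Multiset.mem_toFinset, mem_roots hh, IsRoot.def, eval_sub, eval_mul, eval_X]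
  linear_combination z * h2 - h1

section realize

variable {d : ℕ}

/-- the tuple of the forms comes from a tensor -/
theorem realize (hd : 3 ≤ d) (g : Fin d → ℂ[X]) (hdeg : ∀ k, (g k).natDegree ≤ d) (μ : Fin d → ℂ)
    (hμ : ∀ k, μ k ≠ 0) (α β : ℂ) (hβ : β ≠ 0) (h0 : ∀ k, (g k).coeff 0 = μ k * α)
    (hd' : ∀ k, (g k).coeff d = μ k * β) (hm : Even d → ∑ k, (g k).coeff (d / 2) / μ k = 0)
    (hnd : ∀ k, (g k).roots.Nodup) :
    ∃ y : Coord 1 d, (∀ i, ‖fun a => y.1 (i, a)‖ = 1) ∧ toConf y ∈ eigenConfs 1 d ∧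
      ∀ k, ∃ c : ℂ, g k = C c * Qy y.1 k := by
  classical
  have hlead : ∀ k, (g k).coeff d ≠ 0 := fun k => by
    rw [hd' k]
    exact mul_ne_zero (hμ k) hβ
  have hnat : ∀ k, (g k).natDegree = d := fun k =>
    le_antisymm (hdeg k) (le_natDegree_of_ne_zero (hlead k))
  have hcard : ∀ k, Multiset.card (g k).roots = D 1 d := fun k => by
    rw [D_one hd, ← (IsAlgClosed.splits (g k)).natDegree_eq_card_roots, hnat k]
  choose z hz using fun k => exists_fun' (g k).roots (hcard k)
  have hprod : ∀ k, g k = C (g k).leadingCoeff * ∏ j, (X - C (z k j)) := by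
    intro k
    conv_lhs => rw [← C_leadingCoeff_mul_prod_multiset_X_sub_C (p := g k) (by
      rw [hcard k, D_one hd, hnat k]), ← hz k, Multiset.map_map]
    rfl
  -- the normalised vectors
  have hnorm : ∀ k j, ‖vz (z k j)‖ ≠ 0 := fun k j => norm_ne_zero_iff.mpr (vz_ne _)
  let v : Fin d × Fin (D 1 d) → V 1 := fun i => ((‖vz (z i.1 i.2)‖ : ℂ)⁻¹) • vz (z i.1 i.2)
  have hv1 : ∀ i, ‖v i‖ = 1 := by
    intro i
    change ‖((‖vz (z i.1 i.2)‖ : ℂ)⁻¹) • vz (z i.1 i.2)‖ = 1
    rw [norm_smul, norm_inv, Complex.norm_real, norm_norm]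
    exact inv_mul_cancel₀ (hnorm i.1 i.2)
  have hv0 : ∀ i, v i ≠ 0 := fun i h => by
    have := hv1 i
    rw [h, norm_zero] at this
    exact zero_ne_one this
  let y : Coord 1 d := ⟨fun s => v s.1 s.2, hv0⟩
  have hQ : ∀ k, Qy y.1 k = C (∏ j, (‖vz (z k j)‖ : ℂ)⁻¹) * ∏ j, (X - C (z k j)) := by
    intro k
    rw [Qy, map_prod, ← Finset.prod_mul_distrib]
    refine Finset.prod_congr rfl fun j _ => ?_
    change (C (wc (((‖vz (z k j)‖ : ℂ)⁻¹) • vz (z k j))) * X +
      C (uc (((‖vz (z k j)‖ : ℂ)⁻¹) • vz (z k j))) : ℂ[X]) = _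
    rw [wc_smul, uc_smul, wc_vz, uc_vz, mul_one, mul_neg, C_neg, C_mul]
    ring
  have hν : ∀ k, ∏ j, (‖vz (z k j)‖ : ℂ)⁻¹ ≠ 0 := fun k =>
    Finset.prod_ne_zero_iff.mpr fun j _ => inv_ne_zero (by exact_mod_cast hnorm k j)
  have hgQ : ∀ k, ∃ c : ℂ, c ≠ 0 ∧ g k = C c * Qy y.1 k := by
    intro k
    refine ⟨(g k).leadingCoeff / ∏ j, (‖vz (z k j)‖ : ℂ)⁻¹, div_ne_zero ?_ (hν k), ?_⟩
    · rw [leadingCoeff, hnat k]
      exact hlead k
    · rw [hQ k, ← mul_assoc, ← C_mul, div_mul_cancel₀ _ (hν k)]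
      exact hprod k
  refine ⟨y, hv1, ?_, fun k => ?_⟩
  · -- the tensor
    obtain ⟨T, hT⟩ := exists_tensor (fun k m => (g k).coeff m / μ k)
      (fun k l => by
        change (g k).coeff 0 / μ k = (g l).coeff 0 / μ l
        rw [h0, h0, mul_div_cancel_left₀ _ (hμ k), mul_div_cancel_left₀ _ (hμ l)])
      (fun k l => by
        change (g k).coeff d / μ k = (g l).coeff d / μ l
        rw [hd', hd', mul_div_cancel_left₀ _ (hμ k), mul_div_cancel_left₀ _ (hμ l)]) hm
    have hFL : ∀ k, FL k T = C (μ k)⁻¹ * g k := by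
      intro k
      ext m
      rw [coeff_C_mul]
      rcases Nat.lt_or_ge d m with h | h
      · rw [coeff_eq_zero_of_natDegree_lt ((FL_natDegree k T).trans_lt h),
          coeff_eq_zero_of_natDegree_lt ((hdeg k).trans_lt h), mul_zero]
      · rw [hT k m h]
        ring
    have hform : ∀ k, ∃ c : ℂ, c ≠ 0 ∧ FL k T = C c * form (toConf y k : Multiset _) := by
      intro k
      obtain ⟨c, hc, h1⟩ := hgQ k
      obtain ⟨c', hc', h2⟩ := form_toConf y k
      refine ⟨(μ k)⁻¹ * c / c', div_ne_zero (mul_ne_zero (inv_ne_zero (hμ k)) hc) hc', ?_⟩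
      rw [hFL k, h1, h2, ← mul_assoc, ← mul_assoc, ← C_mul, ← C_mul, div_mul_cancel₀ _ hc']
    refine ⟨T, fun k => ⟨?_, fun p => ?_⟩⟩
    · -- the points are different
      have h1 : Multiset.map (fun p : ℙ ℂ (V 1) => -uc p.rep / wc p.rep)
          (toConf y k : Multiset (ℙ ℂ (V 1))) = (g k).roots := by
        rw [← hz k]
        change Multiset.map _ (Finset.univ.val.map fun j : Fin (D 1 d) =>
          Projectivization.mk ℂ (fun a => y.1 ((k, j), a)) (y.2 (k, j))) = _
        rw [Multiset.map_map]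
        refine Multiset.map_congr rfl fun j _ => ?_
        obtain ⟨a, ha⟩ := Projectivization.exists_smul_eq_mk_rep ℂ
          (fun a => y.1 ((k, j), a) : V 1) (y.2 (k, j))
        change -uc (Projectivization.mk ℂ (fun a => y.1 ((k, j), a) : V 1) (y.2 (k, j))).rep /
          wc (Projectivization.mk ℂ (fun a => y.1 ((k, j), a) : V 1) (y.2 (k, j))).rep = z k j
        rw [← ha]
        change -uc ((a : ℂ) • (((‖vz (z k j)‖ : ℂ)⁻¹) • vz (z k j))) /
          wc ((a : ℂ) • (((‖vz (z k j)‖ : ℂ)⁻¹) • vz (z k j))) = z k j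
        rw [uc_smul, uc_smul, wc_smul, wc_smul, uc_vz, wc_vz]
        have h2 : (a : ℂ) ≠ 0 := a.ne_zero
        have h3 : (‖vz (z k j)‖ : ℂ) ≠ 0 := by exact_mod_cast hnorm k j
        field_simp
      refine Multiset.Nodup.of_map (fun p : ℙ ℂ (V 1) => -uc p.rep / wc p.rep) ?_
      rw [h1]
      exact hnd k
    · obtain ⟨c, hc, h1⟩ := hform k
      have h2 : Multiset.card (toConf y k : Multiset (ℙ ℂ (V 1))) = d :=
        (card_conf _ k).trans (D_one hd)
      have h3 := hev_form (toConf y k : Multiset (ℙ ℂ (V 1))) (-uc p.rep) (wc p.rep)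
      rw [h2] at h3
      rw [eigen_iff, h1, ← smul_eq_C_mul, map_smul, h3, smul_eq_mul]
      constructor
      · intro hp
        have hp' : p ∈ (toConf y k : Multiset (ℙ ℂ (V 1))) := hp
        rw [Multiset.prod_eq_zero (Multiset.mem_map.mpr ⟨p, hp', det_self p⟩), mul_zero]
      · intro h4
        have h5 := (mul_eq_zero.mp h4).resolve_left hc
        rw [Multiset.prod_eq_zero_iff, Multiset.mem_map] at h5
        obtain ⟨p', hp', h6⟩ := h5
        rw [← det_eq h6]
        exact hp'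
  · obtain ⟨c, -, h⟩ := hgQ k
    exact ⟨c, h⟩

end realize

end Pool.Agent.K9h86.EB
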