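import Mathlib
import Pool.Agent.K9h86.EB.Re

/-!
# The closure
-/

set_option autoImplicit false
set_option maxHeartbeats 400000

namespace Pool.Agent.K9h86.EB

open Polynomial Pool.Agent.Helper834.EC Filter Topology
open scoped LinearAlgebra.Projectivization

variable {d : ℕ}

/-- the polynomials with the given coefficients -/
noncomputable def pol (G : Fin d → Fin (d + 1) → ℂ) (k : Fin d) : ℂ[X] :=
  ∑ m : Fin (d + 1), C (G k m) * X ^ (m : ℕ)

lemma pol_coeff (G : Fin d → Fin (d + 1) → ℂ) (k : Fin d) (m : Fin (d + 1)) :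
    (pol G k).coeff m = G k m := by
  rw [pol, finsetSum_coeff, Finset.sum_eq_single m]
  · rw [coeff_C_mul, coeff_X_pow, if_pos rfl, mul_one]
  · intro b _ hb
    rw [coeff_C_mul, coeff_X_pow, if_neg (fun h => hb (Fin.ext h.symm)), mul_zero]
  · intro h
    exact absurd (Finset.mem_univ m) h

lemma pol_natDegree (G : Fin d → Fin (d + 1) → ℂ) (k : Fin d) : (pol G k).natDegree ≤ d := by
  rw [pol]
  refine natDegree_sum_le_of_forall_le _ _ fun m _ => ?_
  refine (natDegree_C_mul_X_pow_le _ _).trans ?_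
  have := m.2
  omega

/-- the index in the middle -/
def mid (d : ℕ) : Fin (d + 1) := ⟨d / 2, by omega⟩

/-- the tuples which come from tensors -/
def Real' (d : ℕ) : Set (Fin d → Fin (d + 1) → ℂ) :=
  {G | ∃ y : Coord 1 d, (∀ i, ‖fun a => y.1 (i, a)‖ = 1) ∧ toConf y ∈ eigenConfs 1 d ∧
    ∀ k, ∃ c : ℂ, ∀ m : Fin (d + 1), G k m = c * (Qy y.1 k).coeff m}

/-- the tuples which satisfy the equations in general position -/
def Dat (d : ℕ) : Set (Fin d → Fin (d + 1) → ℂ) :=
  {G | ∃ (μ : Fin d → ℂ) (α β : ℂ), (∀ k, μ k ≠ 0) ∧ α ≠ 0 ∧ β ≠ 0 ∧ (∀ k, G k 0 = μ k * α) ∧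
    (∀ k, G k (Fin.last d) = μ k * β) ∧ (Even d → ∑ k, G k (mid d) / μ k = 0)}

lemma dat_closure (hd : 3 ≤ d) : Dat d ⊆ closure (Real' d) := by
  rintro G ⟨μ, α, β, hμ, hα, hβ, h0, hl, hm⟩
  let f : ℂ → Fin d → Fin (d + 1) → ℂ := fun η k m => G k m + if (m : ℕ) = 1 then η else 0
  have hf : Continuous f := by
    refine continuous_pi fun k => continuous_pi fun m => ?_
    by_cases h : (m : ℕ) = 1
    · change Continuous fun η : ℂ => G k m + if (m : ℕ) = 1 then η else 0
      simp only [h, if_true]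
      fun_prop
    · change Continuous fun η : ℂ => G k m + if (m : ℕ) = 1 then η else 0
      simp only [h, if_false]
      fun_prop
  have hf0 : f 0 = G := by
    funext k m
    change G k m + (if (m : ℕ) = 1 then 0 else 0) = G k m
    split_ifs <;> exact add_zero _
  rw [← hf0]
  refine mem_closure_of_path f hf.continuousAt ?_
  have h1 : ∀ᶠ η in 𝓝[≠] (0 : ℂ), ∀ k, (pol G k + C η * X).roots.Nodup := by
    rw [eventually_all]
    intro k
    refine (nodup_cofinite (pol G k) ?_).filter_mono (nhdsNE_le_cofinite 0)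
    have h2 := pol_coeff G k 0
    rw [Fin.val_zero] at h2
    rw [h2, h0]
    exact mul_ne_zero (hμ k) hα
  filter_upwards [h1] with η hη
  have hpol : ∀ k, pol (f η) k = pol G k + C η * X := by
    intro k
    rw [pol, pol]
    have h2 : ∀ m : Fin (d + 1), (C (f η k m) * X ^ (m : ℕ) : ℂ[X])
        = C (G k m) * X ^ (m : ℕ) + if m = ⟨1, by omega⟩ then C η * X else 0 := by
      intro m
      change (C (G k m + if (m : ℕ) = 1 then η else 0) * X ^ (m : ℕ) : ℂ[X]) = _
      by_cases h : (m : ℕ) = 1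
      · rw [if_pos h, if_pos (Fin.ext h), C_add, add_mul, h, pow_one]
      · rw [if_neg h, if_neg (fun h' => h (congrArg Fin.val h')), add_zero, add_zero]
    rw [Finset.sum_congr rfl (fun m _ => h2 m), Finset.sum_add_distrib, Finset.sum_ite_eq',
      if_pos (Finset.mem_univ _)]
  have e0 : ∀ k, f η k 0 = G k 0 := fun k => by
    change G k 0 + (if ((0 : Fin (d + 1)) : ℕ) = 1 then η else 0) = _
    rw [if_neg (by rw [Fin.val_zero]; omega), add_zero]
  have e1 : ∀ k, f η k (Fin.last d) = G k (Fin.last d) := fun k => by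
    change G k _ + (if ((Fin.last d : Fin (d + 1)) : ℕ) = 1 then η else 0) = _
    rw [if_neg (by rw [Fin.val_last]; omega), add_zero]
  have e2 : ∀ k, Even d → f η k (mid d) = G k (mid d) := fun k he => by
    change G k _ + (if ((mid d : Fin (d + 1)) : ℕ) = 1 then η else 0) = _
    rw [if_neg (by
      obtain ⟨e, he⟩ := he
      change ¬ d / 2 = 1
      omega), add_zero]
  obtain ⟨y, hy1, hy2, hy3⟩ := realize hd (pol (f η)) (pol_natDegree _) μ hμ α β hβ
    (fun k => by
      have h2 := pol_coeff (f η) k 0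
      rw [Fin.val_zero] at h2
      rw [h2, e0, h0])
    (fun k => by
      have h2 := pol_coeff (f η) k (Fin.last d)
      rw [Fin.val_last] at h2
      rw [h2, e1, hl])
    (fun he => by
      have h2 : ∀ k, (pol (f η) k).coeff (d / 2) / μ k = G k (mid d) / μ k := fun k => by
        rw [← e2 k he]
        congr 1
        exact pol_coeff (f η) k (mid d)
      rw [Finset.sum_congr rfl (fun k _ => h2 k)]
      exact hm he)
    (fun k => by rw [hpol k]; exact hη k)
  refine ⟨y, hy1, hy2, fun k => ?_⟩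
  obtain ⟨c, hc⟩ := hy3 k
  refine ⟨c, fun m => ?_⟩
  rw [← pol_coeff (f η) k m, hc, coeff_C_mul]

/-- the coefficients of the forms -/
noncomputable def cf (P : Fin d → ℂ[X]) : Fin d → Fin (d + 1) → ℂ := fun k m => (P k).coeff m

/-- the tuples which satisfy the equations are limits -/
theorem compatible_closure (hd : 3 ≤ d) (P : Fin d → ℂ[X]) (hP : Compatible d P) :
    cf P ∈ closure (Real' d) := by
  classical
  obtain ⟨h1, h2⟩ := hP
  -- the factors
  have hfac : ∃ (μ : Fin d → ℂ) (α β : ℂ), (α ≠ 0 ∨ β ≠ 0) ∧ (∀ k, (P k).coeff 0 = μ k * α) ∧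
      ∀ k, (P k).coeff d = μ k * β := by
    by_cases hz : ∃ k₀, (P k₀).coeff 0 ≠ 0 ∨ (P k₀).coeff d ≠ 0
    · obtain ⟨k₀, hk⟩ := hz
      by_cases ha : (P k₀).coeff 0 = 0
      · have hb : (P k₀).coeff d ≠ 0 := hk.resolve_left (fun h => h ha)
        refine ⟨fun k => (P k).coeff d / (P k₀).coeff d, (P k₀).coeff 0, (P k₀).coeff d,
          Or.inr hb, fun k => ?_, fun k => ?_⟩
        · have h3 := h1 k k₀
          rw [ha, zero_mul] at h3
          rw [ha, mul_zero]
          exact (mul_eq_zero.mp h3).resolve_right hb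
        · exact (div_mul_cancel₀ _ hb).symm
      · refine ⟨fun k => (P k).coeff 0 / (P k₀).coeff 0, (P k₀).coeff 0, (P k₀).coeff d,
          Or.inl ha, fun k => ?_, fun k => ?_⟩
        · exact (div_mul_cancel₀ _ ha).symm
        · have h3 := h1 k k₀
          change _ = (P k).coeff 0 / (P k₀).coeff 0 * (P k₀).coeff d
          rw [div_mul_eq_mul_div, eq_div_iff ha]
          linear_combination -h3
    · push Not at hz
      refine ⟨fun _ => 0, 1, 1, Or.inl one_ne_zero, fun k => ?_, fun k => ?_⟩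
      · rw [(hz k).1, zero_mul]
      · rw [(hz k).2, zero_mul]
  obtain ⟨μ, α, β, hαβ, hμ0, hμd⟩ := hfac
  let x : Fin d → ℂ := fun k => if Even d then (P k).coeff (d / 2) else 0
  have hx : ∑ k, x k * ∏ l ∈ Finset.univ.erase k, μ l = 0 := by
    by_cases he : Even d
    · have e1 : ∀ γ : ℂ, ∑ k, (P k).coeff (d / 2) * ∏ l ∈ Finset.univ.erase k, (μ l * γ)
          = (∑ k, x k * ∏ l ∈ Finset.univ.erase k, μ l) * γ ^ (d - 1) := by
        intro γ
        rw [Finset.sum_mul]
        refine Finset.sum_congr rfl fun k _ => ?_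
        rw [Finset.prod_mul_distrib, Finset.prod_const,
          Finset.card_erase_of_mem (Finset.mem_univ k), Finset.card_univ, Fintype.card_fin]
        change _ = (if Even d then (P k).coeff (d / 2) else 0) * _ * _
        rw [if_pos he]
        ring
      obtain ⟨h3, h4⟩ := h2 he
      simp only [hμ0] at h3
      simp only [hμd] at h4
      rw [e1] at h3 h4
      rcases hαβ with h | h
      · exact (mul_eq_zero.mp h3).resolve_right (pow_ne_zero _ h)
      · exact (mul_eq_zero.mp h4).resolve_right (pow_ne_zero _ h)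
    · refine Finset.sum_eq_zero fun k _ => ?_
      change (if Even d then (P k).coeff (d / 2) else 0) * _ = 0
      rw [if_neg he, zero_mul]
  -- the map
  let Θ : ((Fin d → ℂ) × (Fin d → ℂ)) × (ℂ × ℂ) → Fin d → Fin (d + 1) → ℂ := fun w k m =>
    if (m : ℕ) = 0 then w.1.1 k * w.2.1 else if (m : ℕ) = d then w.1.1 k * w.2.2 else
      if Even d ∧ (m : ℕ) = d / 2 then w.1.2 k else (P k).coeff m
  have hΘ : Continuous Θ := by
    refine continuous_pi fun k => continuous_pi fun m => ?_
    change Continuous fun w : ((Fin d → ℂ) × (Fin d → ℂ)) × (ℂ × ℂ) =>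
      if (m : ℕ) = 0 then w.1.1 k * w.2.1 else if (m : ℕ) = d then w.1.1 k * w.2.2 else
      if Even d ∧ (m : ℕ) = d / 2 then w.1.2 k else (P k).coeff m
    split_ifs
    · fun_prop
    · fun_prop
    · fun_prop
    · fun_prop
  have hΘ0 : Θ ((μ, x), (α, β)) = cf P := by
    funext k m
    change (if (m : ℕ) = 0 then μ k * α else if (m : ℕ) = d then μ k * β else
      if Even d ∧ (m : ℕ) = d / 2 then x k else (P k).coeff m) = (P k).coeff m
    split_ifs with e1 e2 e3
    · rw [e1, hμ0]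
    · rw [e2, hμd]
    · change (if Even d then (P k).coeff (d / 2) else 0) = _
      rw [if_pos e3.1, e3.2]
    · rfl
  have hmem : ((μ, x), (α, β)) ∈ closure (Gd (Fin d) ×ˢ (({0}ᶜ : Set ℂ) ×ˢ ({0}ᶜ : Set ℂ))) := by
    rw [closure_prod_eq, closure_prod_eq, (dense_compl_singleton (0 : ℂ)).closure_eq]
    exact ⟨mem_closure_Gd μ x hx, trivial, trivial⟩
  have hmaps : Set.MapsTo Θ (Gd (Fin d) ×ˢ (({0}ᶜ : Set ℂ) ×ˢ ({0}ᶜ : Set ℂ))) (Dat d) := by
    rintro ⟨⟨μ', x'⟩, ⟨α', β'⟩⟩ ⟨⟨g1, g2⟩, g3, g4⟩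
    refine ⟨μ', α', β', g1, g3, g4, fun k => ?_, fun k => ?_, fun he => ?_⟩
    · exact if_pos rfl
    · change (if ((Fin.last d : Fin (d + 1)) : ℕ) = 0 then μ' k * α' else
        if ((Fin.last d : Fin (d + 1)) : ℕ) = d then μ' k * β' else _) = μ' k * β'
      rw [Fin.val_last, if_neg (by omega), if_pos rfl]
    · have g5 : ∀ k, Θ ((μ', x'), (α', β')) k (mid d) = x' k := by
        intro k
        change (if d / 2 = 0 then μ' k * α' else if d / 2 = d then μ' k * β' else
          if Even d ∧ d / 2 = d / 2 then x' k else _) = x' k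
        rw [if_neg (by omega), if_neg (by omega), if_pos ⟨he, rfl⟩]
      simp only [g5]
      exact g2
  have h5 := map_mem_closure hΘ hmem hmaps
  rw [hΘ0] at h5
  have h6 := closure_mono (dat_closure hd) h5
  rwa [closure_closure] at h6

/-- the limits belong to the Zariski closure -/
theorem limit_mem (hd : 3 ≤ d) (Z : Conf 1 d)
    (hZ : cf (fun k => form (Z k : Multiset (ℙ ℂ (V 1)))) ∈ closure (Real' d)) :
    Z ∈ closure (eigenConfs 1 d) := by
  classical
  set P : Fin d → ℂ[X] := fun k => form (Z k : Multiset (ℙ ℂ (V 1))) with hP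
  obtain ⟨G, hG, hlim⟩ := mem_closure_iff_seq_limit.mp hZ
  choose y hy1 hy2 hy3 using hG
  -- a convergent subsequence of the coordinates
  let Y : ℕ → (Fin d × Fin (D 1 d)) → (Fin (1 + 1) → ℂ) := fun n i a => (y n).1 (i, a)
  have hK : IsCompact (Set.univ.pi fun _ : Fin d × Fin (D 1 d) =>
      Metric.sphere (0 : Fin (1 + 1) → ℂ) 1) := isCompact_univ_pi fun _ => isCompact_sphere 0 1
  have hY : ∀ n, Y n ∈ (Set.univ.pi fun _ : Fin d × Fin (D 1 d) =>
      Metric.sphere (0 : Fin (1 + 1) → ℂ) 1) := by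
    intro n i _
    rw [mem_sphere_zero_iff_norm]
    exact hy1 n i
  obtain ⟨Y', hY', φ, hφ, hconv⟩ := hK.tendsto_subseq hY
  have hY1 : ∀ i, Y' i ≠ 0 := by
    intro i h
    have h1 := hY' i trivial
    rw [mem_sphere_zero_iff_norm, h, norm_zero] at h1
    exact zero_ne_one h1
  let y' : Coord 1 d := ⟨fun s => Y' s.1 s.2, hY1⟩
  let w : ℕ → ((Fin d × Fin (D 1 d)) × Fin (1 + 1) → ℂ) := fun n s => Y (φ n) s.1 s.2
  let w' : (Fin d × Fin (D 1 d)) × Fin (1 + 1) → ℂ := fun s => Y' s.1 s.2
  have hw : Tendsto w atTop (𝓝 w') := by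
    rw [tendsto_pi_nhds]
    rintro ⟨i, a⟩
    have h1 := tendsto_pi_nhds.mp (tendsto_pi_nhds.mp hconv i) a
    exact h1
  have hcoef : ∀ (k : Fin d) (m : ℕ), Tendsto (fun n => (Qy (w n) k).coeff m) atTop
      (𝓝 ((Qy w' k).coeff m)) := by
    intro k m
    have h1 := ((MvPolynomial.continuous_eval ((Qmv d k).coeff m)).tendsto w').comp hw
    rw [Qmv_coeff] at h1
    refine h1.congr fun n => ?_
    exact Qmv_coeff (w n) k m
  have hGl : ∀ (k : Fin d) (m : Fin (d + 1)), Tendsto (fun n => G (φ n) k m) atTop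
      (𝓝 ((P k).coeff m)) := by
    intro k m
    exact tendsto_pi_nhds.mp (tendsto_pi_nhds.mp (hlim.comp hφ.tendsto_atTop) k) m
  -- the forms are proportional in the limit
  have hprop : ∀ (k : Fin d) (m m' : Fin (d + 1)),
      (P k).coeff m * (Qy w' k).coeff m' = (P k).coeff m' * (Qy w' k).coeff m := by
    intro k m m'
    have h1 := (hGl k m).mul (hcoef k m')
    have h2 := (hGl k m').mul (hcoef k m)
    refine tendsto_nhds_unique h1 (h2.congr fun n => ?_)
    obtain ⟨c, hc⟩ := hy3 (φ n) k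
    rw [hc m, hc m']
    change c * (Qy (y (φ n)).1 k).coeff m' * (Qy (y (φ n)).1 k).coeff m
      = c * (Qy (y (φ n)).1 k).coeff m * (Qy (y (φ n)).1 k).coeff m'
    ring
  have hPdeg : ∀ k, (P k).natDegree ≤ d := fun k =>
    (form_natDegree _).trans (((card_conf Z k).trans (D_one hd)).le)
  have hPne : ∀ k, P k ≠ 0 := fun k => form_ne _
  have hZy : Z = toConf y' := by
    funext k
    apply Sym.coe_injective
    obtain ⟨c', hc', h2⟩ := form_toConf y' k
    have hQne : Qy w' k ≠ 0 := by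
      intro h
      have h3 : form (toConf y' k : Multiset (ℙ ℂ (V 1))) = C c' * Qy w' k := h2
      rw [h, mul_zero] at h3
      exact form_ne _ h3
    have hQdeg : (Qy w' k).natDegree ≤ d := by
      have h3 : form (toConf y' k : Multiset (ℙ ℂ (V 1))) = C c' * Qy w' k := h2
      have h4 := form_natDegree (toConf y' k : Multiset (ℙ ℂ (V 1)))
      rw [h3, natDegree_C_mul hc', card_conf, D_one hd] at h4
      exact h4
    obtain ⟨m₀, hm₀⟩ : ∃ m₀, (Qy w' k).coeff m₀ ≠ 0 := by
      by_contra h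
      push Not at h
      exact hQne (Polynomial.ext h)
    have hm₀d : m₀ < d + 1 := by
      by_contra h
      exact hm₀ (coeff_eq_zero_of_natDegree_lt (by omega))
    have h5 : P k = C ((P k).coeff m₀ / (Qy w' k).coeff m₀) * Qy w' k := by
      ext m
      rw [coeff_C_mul]
      rcases Nat.lt_or_ge d m with h | h
      · rw [coeff_eq_zero_of_natDegree_lt ((hPdeg k).trans_lt h),
          coeff_eq_zero_of_natDegree_lt (hQdeg.trans_lt h), mul_zero]
      · have h6 := hprop k ⟨m, by omega⟩ ⟨m₀, hm₀d⟩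
        change (P k).coeff m * (Qy w' k).coeff m₀ = (P k).coeff m₀ * (Qy w' k).coeff m at h6
        rw [div_mul_eq_mul_div, eq_div_iff hm₀]
        exact h6
    refine form_inj _ _ ((card_conf Z k).trans (card_conf _ k).symm)
      ((P k).coeff m₀ / (Qy w' k).coeff m₀ / c') ?_
    have h7 : form (toConf y' k : Multiset (ℙ ℂ (V 1))) = C c' * Qy w' k := h2
    rw [h7, ← mul_assoc, ← C_mul, div_mul_cancel₀ _ hc']
    exact h5
  -- the Zariski closure
  rw [hZy]
  have hcl : IsClosed (toConf ⁻¹' closure (eigenConfs 1 d) : Set (Coord 1 d)) :=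
    isClosed_coinduced.mp isClosed_closure
  obtain ⟨t, ht, ht'⟩ := isClosed_induced_iff.mp hcl
  obtain ⟨S, hS⟩ : ∃ S : Set (MvPolynomial ((Fin d × Fin (D 1 d)) × Fin (1 + 1)) ℂ),
      t = zeros S := by
    rw [← isOpen_compl_iff] at ht
    have h1 : ∃ S', tᶜᶜ = zeros S' := ht
    rwa [compl_compl] at h1
  have h1 : y' ∈ (Subtype.val ⁻¹' t : Set (Coord 1 d)) := by
    change y'.1 ∈ t
    rw [hS]
    intro f hf
    have h2 : ∀ n, MvPolynomial.eval (w n) f = 0 := by
      intro n
      have h3 : y (φ n) ∈ (Subtype.val ⁻¹' t : Set (Coord 1 d)) := by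
        rw [ht']
        exact subset_closure (hy2 (φ n))
      have h4 : (y (φ n)).1 ∈ t := h3
      rw [hS] at h4
      exact h4 f hf
    have h3 := ((MvPolynomial.continuous_eval f).tendsto w').comp hw
    have h4 : Tendsto (fun _ : ℕ => (0 : ℂ)) atTop (𝓝 (MvPolynomial.eval w' f)) :=
      h3.congr h2
    exact tendsto_nhds_unique h4 tendsto_const_nhds
  rw [ht'] at h1
  exact h1

end Pool.Agent.K9h86.EB
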