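import Mathlib
import Pool.Agent.K9h86.EB.Cl

/-!
# The equations cut out the eigencompatibility variety
-/

set_option autoImplicit false
set_option maxHeartbeats 400000

namespace Pool.Agent.K9h86.EB

open Polynomial Pool.Agent.Helper834.EC
open scoped LinearAlgebra.Projectivization

variable {d : ℕ}

lemma closure_eq_cutOut (hd : 3 ≤ d) : closure (eigenConfs 1 d) = cutOut d := by
  refine Set.Subset.antisymm ?_ fun Z hZ => ?_
  · exact closure_minimal ((eigen_scheme hd).trans (scheme_cut hd)) isClosed_cutOut
  · exact limit_mem hd Z (compatible_closure hd _ hZ)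

/-- the coefficients of a product of linear polynomials -/
lemma coeff_prod_lin {m : ℕ} (w u : Fin m → ℂ) (n : ℕ) :
    (∏ j, (C (w j) * X + C (u j))).coeff n
      = ∑ A ∈ Finset.powersetCard n (Finset.univ : Finset (Fin m)),
        (∏ j ∈ A, w j) * ∏ j ∈ Aᶜ, u j := by
  rw [Finset.prod_add, finsetSum_coeff, Finset.powersetCard_eq_filter, Finset.sum_filter]
  refine Finset.sum_congr rfl fun A _ => ?_
  rw [Finset.prod_mul_distrib, Finset.prod_const, ← map_prod, ← map_prod,
    mul_assoc, coeff_C_mul, mul_comm (X ^ A.card), coeff_C_mul, coeff_X_pow]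
  rw [← Finset.compl_eq_univ_sdiff]
  by_cases h : A.card = n
  · rw [if_pos h, if_pos h.symm, mul_one]
  · rw [if_neg h, if_neg (fun h' => h h'.symm), mul_zero, mul_zero]

lemma equations_iff (hd : 3 ≤ d) (y : Coord 1 d) : Equations y ↔ Compatible d (Qy y.1) := by
  have hD : D 1 d = d := D_one hd
  have h0 : ∀ k, (Qy y.1 k).coeff 0 = prodU y k := by
    intro k
    rw [Qy, coeff_prod_lin, Finset.powersetCard_zero, Finset.sum_singleton, Finset.prod_empty,
      one_mul, Finset.compl_empty]
    rfl
  have h1 : ∀ k, (Qy y.1 k).coeff d = prodW y k := by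
    intro k
    have h2 : Finset.powersetCard d (Finset.univ : Finset (Fin (D 1 d))) = {Finset.univ} := by
      have hc : (Finset.univ : Finset (Fin (D 1 d))).card = d := by
        rw [Finset.card_univ, Fintype.card_fin, hD]
      have h3 := Finset.powersetCard_self (Finset.univ : Finset (Fin (D 1 d)))
      rwa [hc] at h3
    rw [Qy, coeff_prod_lin, h2, Finset.sum_singleton, Finset.compl_univ, Finset.prod_empty,
      mul_one]
    rfl
  have h2 : ∀ k, (Qy y.1 k).coeff (d / 2) = middle y k := by
    intro k
    rw [Qy, coeff_prod_lin]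
    rfl
  constructor
  · rintro ⟨e1, e2, e3⟩
    refine ⟨fun k l => ?_, fun he => ⟨?_, ?_⟩⟩
    · rw [h0, h0, h1, h1]
      exact e1 k l
    · simp only [h0, h2]
      exact e2 he
    · simp only [h1, h2]
      exact e3 he
  · rintro ⟨e1, e2⟩
    refine ⟨fun k l => ?_, fun he => ?_, fun he => ?_⟩
    · have := e1 k l
      rwa [h0, h0, h1, h1] at this
    · have := (e2 he).1
      simpa only [h0, h2] using this
    · have := (e2 he).2
      simpa only [h1, h2] using this

theorem main (hd : 3 ≤ d) :
    (∀ y : Coord 1 d, toConf y ∈ eigencompatibilityVariety 1 d ↔ Equations y) ∧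
    eigenConfs 1 d ⊆ schemeConfs d ∧ schemeConfs d ⊆ eigencompatibilityVariety 1 d := by
  refine ⟨fun y => ?_, eigen_scheme hd, ?_⟩
  · rw [equations_iff hd, ← cut_iff, ← closure_eq_cutOut hd]
    rfl
  · refine (scheme_cut hd).trans ?_
    rw [← closure_eq_cutOut hd]
    exact subset_rfl

end Pool.Agent.K9h86.EB
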